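import Mathlib

set_option autoImplicit false

open scoped ENNReal NNReal

namespace Pool.Agent.H41.Rot

/-- The matrix `D = diag(2, 1/2)`. -/
noncomputable def Dm : Matrix (Fin 2) (Fin 2) ℝ := !![2, 0; 0, 1 / 2]

/-- The rotation matrix `R_θ`. -/
noncomputable def Rm (θ : ℝ) : Matrix (Fin 2) (Fin 2) ℝ :=
  !![Real.cos θ, -Real.sin θ; Real.sin θ, Real.cos θ]

/-- The matrix attached to a symbol. The two symbols are coded by `Bool`: `true` is the symbol `1`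
(matrix `D`) and `false` is the symbol `2` (matrix `R_θ`). -/
noncomputable def letter (θ : ℝ) (b : Bool) : Matrix (Fin 2) (Fin 2) ℝ := if b then Dm else Rm θ

/-- The `m`-th power of the left shift on two-sided sequences. -/
def shiftBy (m : ℤ) (x : ℤ → Bool) : ℤ → Bool := fun i => x (i + m)

/-- The left shift `σ`. -/
def shift (x : ℤ → Bool) : ℤ → Bool := shiftBy 1 x

/-- The cocycle `A_θ : Σ → SL(2, ℝ)`, depending only on `x 0`. -/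
noncomputable def A (θ : ℝ) (x : ℤ → Bool) : Matrix (Fin 2) (Fin 2) ℝ := letter θ (x 0)

/-- The products `A_{θ,n}(x) = A_θ(σ^{n-1} x) ⋯ A_θ(σ x) A_θ(x)` for `n ≥ 0`. -/
noncomputable def fiberProd (θ : ℝ) (x : ℤ → Bool) : ℕ → Matrix (Fin 2) (Fin 2) ℝ
  | 0 => 1
  | (n + 1) => A θ (shift^[n] x) * fiberProd θ x n

/-- The fiber products `A_{θ,n}(x)` for all integers `n`;
`A_{θ,-n}(x) = A_{θ,n}(σ^{-n} x)⁻¹` for `n ≥ 1`. -/
noncomputable def cocycle (θ : ℝ) (x : ℤ → Bool) : ℤ → Matrix (Fin 2) (Fin 2) ℝ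
  | (Int.ofNat n) => fiberProd θ x n
  | (Int.negSucc n) => (fiberProd θ (shiftBy (-(n + 1 : ℤ)) x) (n + 1))⁻¹

/-- The set `B_θ` of points with fiberwise bounded orbit: all entries of all `A_{θ,n}(x)` and of
their inverses, `n ∈ ℤ`, are bounded by one constant. -/
def boundedOrbits (θ : ℝ) : Set (ℤ → Bool) :=
  {x | ∃ K : ℝ, ∀ (n : ℤ) (i j : Fin 2),
    |cocycle θ x n i j| ≤ K ∧ |(cocycle θ x n)⁻¹ i j| ≤ K}

/-- Bowen's `n_{T,𝒜}(E)`: the largest `n ≤ ∞` such that each of `E, T E, ..., T^{n-1} E` is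
contained in some member of `𝒜`. -/
noncomputable def stay {X : Type*} (T : X → X) (𝒜 : Set (Set X)) (E : Set X) : ℕ∞ :=
  sSup {n : ℕ∞ | ∀ k : ℕ, (k : ℕ∞) < n → ∃ S ∈ 𝒜, T^[k] '' E ⊆ S}

/-- The weight `exp(- s n)`, equal to `0` for `n = ∞`. -/
noncomputable def weight (s : ℝ≥0) (n : ℕ∞) : ℝ≥0∞ :=
  if n = ⊤ then 0 else ENNReal.ofReal (Real.exp (-((s : ℝ) * (n.toNat : ℝ))))

/-- Bowen's outer measure `m_{𝒜,s}(Y)`: the limit as `N → ∞` of the infimum of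
`∑ exp(- s n_{T,𝒜}(E_i))` over the countable covers `(E_i)` of `Y` with all
`n_{T,𝒜}(E_i) ≥ N`. -/
noncomputable def bowenMeasure {X : Type*} (T : X → X) (𝒜 : Set (Set X)) (s : ℝ≥0) (Y : Set X) :
    ℝ≥0∞ :=
  ⨆ N : ℕ, ⨅ (E : ℕ → Set X) (_ : Y ⊆ ⋃ i, E i) (_ : ∀ i, (N : ℕ∞) ≤ stay T 𝒜 (E i)),
    ∑' i, weight s (stay T 𝒜 (E i))

/-- Bowen's topological entropy `h(T, Y)` of `T` on an arbitrary subset `Y` of a compact space `X`:
the supremum, over the finite open covers `𝒜` of `X`, of `inf {s ≥ 0 : m_{𝒜,s}(Y) = 0}`. -/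
noncomputable def bowenEntropy {X : Type*} [TopologicalSpace X] (T : X → X) (Y : Set X) : ℝ≥0∞ :=
  ⨆ (𝒜 : Set (Set X)) (_ : 𝒜.Finite) (_ : ∀ S ∈ 𝒜, IsOpen S) (_ : ⋃₀ 𝒜 = Set.univ),
    ⨅ (s : ℝ≥0) (_ : bowenMeasure T 𝒜 s Y = 0), (s : ℝ≥0∞)

end Pool.Agent.H41.Rot
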