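import Mathlib

set_option autoImplicit false
open Filter Topology

namespace Pool.Agent.S04440

/-- `a` is the sequence of Taylor coefficients of `F` at `0`. -/
def PS (F : ℂ → ℂ) (a : ℕ → ℂ) : Prop :=
  ∀ᶠ z in 𝓝 (0 : ℂ), HasSum (fun n => a n * z ^ n) (F z)

theorem PS.hasFPowerSeriesAt {F : ℂ → ℂ} {a : ℕ → ℂ} (h : PS F a) :
    HasFPowerSeriesAt F (FormalMultilinearSeries.ofScalars ℂ a) 0 := by
  rw [hasFPowerSeriesAt_iff]
  filter_upwards [h] with z hz
  rw [zero_add]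
  simpa [FormalMultilinearSeries.coeff_ofScalars, mul_comm] using hz

theorem PS.unique {F : ℂ → ℂ} {a b : ℕ → ℂ} (ha : PS F a) (hb : PS F b) : a = b := by
  have h := ha.hasFPowerSeriesAt.eq_formalMultilinearSeries hb.hasFPowerSeriesAt
  funext n
  have h2 := congrArg (fun p => FormalMultilinearSeries.coeff p n) h
  simpa [FormalMultilinearSeries.coeff_ofScalars] using h2

theorem PS.exists_of_analyticAt {F : ℂ → ℂ} (h : AnalyticAt ℂ F 0) : ∃ a, PS F a := by
  obtain ⟨p, hp⟩ := h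
  refine ⟨p.coeff, ?_⟩
  rw [hasFPowerSeriesAt_iff] at hp
  refine hp.mono fun z hz => ?_
  rw [zero_add] at hz
  simpa [smul_eq_mul, mul_comm] using hz

theorem PS.congr {F G : ℂ → ℂ} {a : ℕ → ℂ} (h : PS F a) (hFG : F =ᶠ[𝓝 0] G) : PS G a := by
  filter_upwards [h, hFG] with z h1 h2
  rwa [← h2]

theorem PS.add {F G : ℂ → ℂ} {a b : ℕ → ℂ} (hF : PS F a) (hG : PS G b) :
    PS (fun z => F z + G z) (fun n => a n + b n) := by
  filter_upwards [hF, hG] with z h1 h2
  simpa [add_mul] using h1.add h2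

theorem PS.sub {F G : ℂ → ℂ} {a b : ℕ → ℂ} (hF : PS F a) (hG : PS G b) :
    PS (fun z => F z - G z) (fun n => a n - b n) := by
  filter_upwards [hF, hG] with z h1 h2
  simpa [sub_mul] using h1.sub h2

theorem PS.comp_mul {F : ℂ → ℂ} {a : ℕ → ℂ} (hF : PS F a) (c : ℂ) :
    PS (fun z => F (c * z)) (fun n => c ^ n * a n) := by
  have ht : Tendsto (fun z : ℂ => c * z) (𝓝 0) (𝓝 0) := by
    have : Continuous fun z : ℂ => c * z := by fun_prop
    simpa using this.tendsto 0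
  filter_upwards [ht.eventually hF] with z h1
  convert h1 using 2 with n
  rw [mul_pow]; ring

/-- coefficients of `F (c z^2)` -/
def dbl (a : ℕ → ℂ) (n : ℕ) : ℂ := if Even n then a (n / 2) else 0

theorem PS.comp_sq {F : ℂ → ℂ} {a : ℕ → ℂ} (hF : PS F a) :
    PS (fun z => F (z ^ 2)) (dbl a) := by
  have ht : Tendsto (fun z : ℂ => z ^ 2) (𝓝 0) (𝓝 0) := by
    have : Continuous fun z : ℂ => z ^ 2 := by fun_prop
    simpa using this.tendsto 0
  filter_upwards [ht.eventually hF] with z h1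
  have hinj : Function.Injective (fun n : ℕ => 2 * n) := fun x y h => by simpa using h
  rw [← hinj.hasSum_iff]
  · convert h1 using 2 with n
    simp [dbl, pow_mul]
  · intro n hn
    have : ¬ Even n := by
      intro he
      obtain ⟨j, hj⟩ := he
      exact hn ⟨j, by simp; omega⟩
    simp [dbl, this]

theorem PS.bound {F : ℂ → ℂ} {a : ℕ → ℂ} (hF : PS F a) :
    ∃ C R : ℝ, 0 < C ∧ 1 ≤ R ∧ ∀ n, ‖a n‖ ≤ C * R ^ n := by
  obtain ⟨ε, hε, h⟩ := Metric.eventually_nhds_iff.mp hF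
  set ρ : ℝ := min (ε / 2) 1 with hρ
  have hρ0 : 0 < ρ := lt_min (by linarith) one_pos
  have hρ1 : ρ ≤ 1 := min_le_right _ _
  have hs : HasSum (fun n => a n * (ρ : ℂ) ^ n) (F ρ) := by
    apply h
    rw [dist_zero_right, Complex.norm_real, Real.norm_eq_abs, abs_of_pos hρ0]
    exact lt_of_le_of_lt (min_le_left _ _) (by linarith)
  have ht := hs.summable.tendsto_atTop_zero
  obtain ⟨C, hC⟩ := (ht.norm.bddAbove_range)
  refine ⟨max C 1, 1 / ρ, by positivity, by rw [le_div_iff₀ hρ0]; linarith, ?_⟩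
  intro n
  have h1 : ‖a n * (ρ : ℂ) ^ n‖ ≤ C := hC ⟨n, rfl⟩
  rw [norm_mul, norm_pow, Complex.norm_real, Real.norm_eq_abs, abs_of_pos hρ0] at h1
  have h2 : ‖a n‖ = (‖a n‖ * ρ ^ n) * (1 / ρ) ^ n := by
    rw [mul_assoc, ← mul_pow, mul_one_div_cancel hρ0.ne', one_pow, mul_one]
  rw [h2]
  apply mul_le_mul_of_nonneg_right (h1.trans (le_max_left _ _))
  positivity

/-- The function with Taylor coefficients `w`. -/
noncomputable def W (w : ℕ → ℂ) (z : ℂ) : ℂ := ∑' n, w n * z ^ n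

theorem PS_W (w : ℕ → ℂ) (hw : ∀ n, ‖w n‖ ≤ 1) : PS (W w) w := by
  have : ∀ᶠ z in 𝓝 (0 : ℂ), ‖z‖ < 1 := by
    have := Metric.ball_mem_nhds (0 : ℂ) one_pos
    filter_upwards [this] with z hz
    simpa using hz
  filter_upwards [this] with z hz
  apply Summable.hasSum
  apply Summable.of_norm_bounded (g := fun n => ‖z‖ ^ n)
  · exact summable_geometric_of_lt_one (norm_nonneg _) hz
  · intro n
    rw [norm_mul, norm_pow]
    calc ‖w n‖ * ‖z‖ ^ n ≤ 1 * ‖z‖ ^ n :=
          mul_le_mul_of_nonneg_right (hw n) (by positivity)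
      _ = ‖z‖ ^ n := one_mul _

/-! ### the Liouville number -/

/-- the exponents -/
def m : ℕ → ℕ
  | 0 => 2
  | (k + 1) => 2 * (k + 1) * (m k) ^ (m k + 2)

theorem m_ge_two (k : ℕ) : 2 ≤ m k := by
  induction k with
  | zero => simp [m]
  | succ k ih =>
    have h1 : 1 ≤ (m k) ^ (m k + 2) := Nat.one_le_pow _ _ (by omega)
    simp only [m]
    nlinarith

theorem m_succ_ge (k : ℕ) : (m k) ^ (m k + 2) ≤ m (k + 1) := by
  simp only [m]
  have : 1 ≤ 2 * (k + 1) := by omega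
  nlinarith [Nat.one_le_pow (m k + 2) (m k) (by have := m_ge_two k; omega)]

theorem m_succ_gt (k : ℕ) : 2 * m k < m (k + 1) := by
  have h := m_succ_ge k
  have h2 := m_ge_two k
  have h3 : (m k) ^ (m k + 2) = (m k) ^ (m k) * (m k * m k) := by ring
  have h4 : 2 ≤ (m k) ^ (m k) := by
    calc 2 ≤ m k := h2
      _ = (m k) ^ 1 := (pow_one _).symm
      _ ≤ (m k) ^ (m k) := Nat.pow_le_pow_right (by omega) (by omega)
  rw [h3] at h
  have h5 : 2 * (m k * m k) ≤ (m k) ^ (m k) * (m k * m k) := Nat.mul_le_mul_right _ h4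
  nlinarith

theorem two_m_dvd (k : ℕ) : 2 * m k ∣ m (k + 1) := by
  refine ⟨(k + 1) * (m k) ^ (m k + 1), ?_⟩
  simp only [m]
  ring

theorem m_dvd_succ (k : ℕ) : m k ∣ m (k + 1) := (Dvd.intro_left 2 rfl).trans (two_m_dvd k)

theorem m_dvd {k l : ℕ} (h : k ≤ l) : m k ∣ m l := by
  induction l, h using Nat.le_induction with
  | base => exact dvd_rfl
  | succ l _ ih => exact ih.trans (m_dvd_succ l)

theorem two_m_dvd_of_lt {k l : ℕ} (h : k < l) : 2 * m k ∣ m l :=
  (two_m_dvd k).trans (m_dvd h)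

theorem dvd_m {N k : ℕ} (hN : 0 < N) (h : N ≤ k) : N ∣ m k := by
  obtain ⟨j, rfl⟩ := Nat.exists_eq_add_of_le' hN
  refine Dvd.dvd.trans ?_ (m_dvd h)
  simp only [m]
  exact ⟨2 * (m j) ^ (m j + 2), by ring⟩

theorem m_strictMono : StrictMono m := strictMono_nat_of_lt_succ fun k => by
  have := m_succ_gt k; omega

theorem m_pow_le (k j : ℕ) : 2 ^ j * m k ≤ m (k + j) := by
  induction j with
  | zero => simp
  | succ j ih =>
    have := m_succ_gt (k + j)
    rw [pow_succ]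
    calc 2 ^ j * 2 * m k = 2 * (2 ^ j * m k) := by ring
      _ ≤ 2 * m (k + j) := Nat.mul_le_mul_left _ ih
      _ ≤ m (k + j + 1) := this.le

noncomputable def term (k : ℕ) : ℝ := 1 / (2 * (m k : ℝ))

theorem term_pos (k : ℕ) : 0 < term k := by
  have := m_ge_two k
  have : (0 : ℝ) < m k := by exact_mod_cast (by omega : 0 < m k)
  unfold term; positivity

theorem term_le (k j : ℕ) : term (k + j) ≤ (1 / (2 * (m k : ℝ))) * (1 / 2) ^ j := by
  have h0 : (0 : ℝ) < m k := by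
    have := m_ge_two k
    exact_mod_cast (by omega : 0 < m k)
  have h : (2 : ℝ) ^ j * m k ≤ m (k + j) := by exact_mod_cast m_pow_le k j
  unfold term
  rw [div_mul_eq_mul_div, one_mul, div_pow, one_pow, div_div,
    div_le_div_iff₀ (by linarith [mul_pos (pow_pos (two_pos : (0:ℝ) < 2) j) h0]) (by positivity)]
  nlinarith

theorem summable_term : Summable term := by
  apply Summable.of_nonneg_of_le (fun k => (term_pos k).le) (fun k => ?_)
    ((summable_geometric_of_lt_one (by norm_num : (0:ℝ) ≤ 1/2) (by norm_num)).mul_left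
      (1 / (2 * (m 0 : ℝ))))
  have := term_le 0 k
  simpa using this

noncomputable def eta : ℝ := ∑' k, term k

theorem tail_bound (k : ℕ) : ∑' j, term (j + (k + 1)) ≤ 1 / (m (k + 1) : ℝ) := by
  have hs : Summable fun j => (1 / (2 * (m (k + 1) : ℝ))) * (1 / 2 : ℝ) ^ j :=
    (summable_geometric_of_lt_one (by norm_num : (0:ℝ) ≤ 1/2) (by norm_num)).mul_left _
  have h1 : ∑' j, term (j + (k + 1)) ≤ ∑' j, (1 / (2 * (m (k + 1) : ℝ))) * (1 / 2 : ℝ) ^ j := by
    apply Summable.tsum_le_tsum _ ((summable_nat_add_iff (k + 1)).mpr summable_term) hs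
    intro j
    have := term_le (k + 1) j
    rwa [add_comm (k + 1) j] at this
  rw [tsum_mul_left, tsum_geometric_of_lt_one (by norm_num) (by norm_num)] at h1
  refine h1.trans (le_of_eq ?_)
  have h0 : (0 : ℝ) < m (k + 1) := by
    have := m_ge_two (k + 1)
    exact_mod_cast (by omega : 0 < m (k + 1))
  field_simp
  norm_num

theorem tail_nonneg (k : ℕ) : 0 ≤ ∑' j, term (j + (k + 1)) :=
  tsum_nonneg fun _ => (term_pos _).le

theorem eta_split (k : ℕ) : ∃ z : ℤ, (m k : ℝ) * eta = z + 1 / 2 +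
    (m k : ℝ) * ∑' j, term (j + (k + 1)) := by
  have h0 : (0 : ℝ) < m k := by
    have := m_ge_two k
    exact_mod_cast (by omega : 0 < m k)
  have h1 : eta = ∑ i ∈ Finset.range (k + 1), term i + ∑' j, term (j + (k + 1)) :=
    (summable_term.sum_add_tsum_nat_add (k + 1)).symm
  have h2 : ∃ z : ℤ, (m k : ℝ) * ∑ i ∈ Finset.range k, term i = z := by
    rw [Finset.mul_sum]
    have : ∀ i ∈ Finset.range k, ∃ z : ℤ, (m k : ℝ) * term i = z := by
      intro i hi
      obtain ⟨c, hc⟩ := two_m_dvd_of_lt (Finset.mem_range.mp hi)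
      refine ⟨c, ?_⟩
      have hi0 : (0 : ℝ) < m i := by
        have := m_ge_two i
        exact_mod_cast (by omega : 0 < m i)
      rw [hc]
      unfold term
      push_cast
      field_simp
    choose! g hg using this
    refine ⟨∑ i ∈ Finset.range k, g i, ?_⟩
    push_cast
    exact Finset.sum_congr rfl hg
  obtain ⟨z, hz⟩ := h2
  refine ⟨z, ?_⟩
  rw [h1, Finset.sum_range_succ, mul_add, mul_add, hz]
  have : (m k : ℝ) * term k = 1 / 2 := by
    unfold term; field_simp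
  rw [this]

noncomputable def nu : ℂ := Complex.exp (2 * Real.pi * eta * Complex.I)

theorem norm_nu : ‖nu‖ = 1 := by
  unfold nu
  have := Complex.norm_exp_ofReal_mul_I (2 * Real.pi * eta)
  push_cast at this
  exact this

theorem nu_pow_m (k : ℕ) : nu ^ (m k) =
    - Complex.exp (2 * Real.pi * ((m k : ℝ) * ∑' j, term (j + (k + 1)) : ℝ) * Complex.I) := by
  obtain ⟨z, hz⟩ := eta_split k
  unfold nu
  rw [← Complex.exp_nat_mul]
  have h1 : ((m k : ℕ) : ℂ) * (2 * Real.pi * eta * Complex.I) =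
      (z : ℂ) * (2 * Real.pi * Complex.I) + Real.pi * Complex.I +
      2 * Real.pi * ((m k : ℝ) * ∑' j, term (j + (k + 1)) : ℝ) * Complex.I := by
    have h2 : ((m k : ℕ) : ℂ) * (eta : ℂ) = (z : ℂ) + 1 / 2 +
      ((m k : ℝ) * ∑' j, term (j + (k + 1)) : ℝ) := by
      rw [← Complex.ofReal_natCast, ← Complex.ofReal_mul, hz]
      push_cast
      ring
    calc ((m k : ℕ) : ℂ) * (2 * Real.pi * eta * Complex.I) =
        2 * Real.pi * Complex.I * (((m k : ℕ) : ℂ) * (eta : ℂ)) := by ring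
      _ = _ := by rw [h2]; ring
  rw [h1, Complex.exp_add, Complex.exp_add, Complex.exp_int_mul_two_pi_mul_I, Complex.exp_pi_mul_I]
  ring

theorem norm_one_add_nu_pow (k : ℕ) :
    ‖1 + nu ^ (m k)‖ ≤ 2 * Real.pi * ((m k : ℝ) / (m (k + 1) : ℝ)) := by
  rw [nu_pow_m]
  set θ : ℝ := (m k : ℝ) * ∑' j, term (j + (k + 1)) with hθ
  have h0 : (0 : ℝ) ≤ m k := Nat.cast_nonneg _
  have hθ0 : 0 ≤ θ := mul_nonneg h0 (tail_nonneg k)
  have hθ1 : θ ≤ (m k : ℝ) / (m (k + 1) : ℝ) := by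
    rw [hθ, div_eq_mul_one_div]
    exact mul_le_mul_of_nonneg_left (tail_bound k) h0
  have h1 : (2 * Real.pi * (θ : ℂ) * Complex.I) = Complex.I * ((2 * Real.pi * θ : ℝ) : ℂ) := by
    push_cast; ring
  rw [← sub_eq_add_neg, norm_sub_rev, h1]
  have h2 := Real.norm_exp_I_mul_ofReal_sub_one_le (x := 2 * Real.pi * θ)
  refine h2.trans ?_
  rw [Real.norm_eq_abs, abs_of_nonneg (by positivity)]
  have := Real.pi_pos
  nlinarith

theorem m_tendsto : Tendsto m atTop atTop := m_strictMono.tendsto_atTop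

theorem superexp (C : ℝ) (hC : 1 ≤ C) :
    Tendsto (fun k => C ^ (m k) * ‖1 + nu ^ (m k)‖) atTop (𝓝 0) := by
  have hup : ∀ᶠ k in atTop, C ^ (m k) * ‖1 + nu ^ (m k)‖ ≤ (2 * Real.pi) * (1 / 2 : ℝ) ^ (m k) := by
    obtain ⟨M, hM⟩ := exists_nat_gt (2 * C)
    filter_upwards [m_tendsto.eventually_ge_atTop M] with k hk
    have hmk : 2 * C ≤ (m k : ℝ) := hM.le.trans (by exact_mod_cast hk)
    have h0 : (0 : ℝ) < m k := by linarith
    have h1 : (1 : ℝ) ≤ m k := by linarith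
    have h2 := norm_one_add_nu_pow k
    have h3 : ((m k : ℝ)) ^ (m k + 2) ≤ (m (k + 1) : ℝ) := by exact_mod_cast m_succ_ge k
    have h4 : (m k : ℝ) / (m (k + 1) : ℝ) ≤ 1 / (m k : ℝ) ^ (m k) := by
      have h5 : (0 : ℝ) < (m k : ℝ) ^ (m k) := by positivity
      have h6 : (0 : ℝ) < (m (k + 1) : ℝ) := lt_of_lt_of_le (by positivity) h3
      rw [div_le_div_iff₀ h6 h5, one_mul]
      refine le_trans ?_ h3
      rw [pow_add, mul_comm]
      apply mul_le_mul_of_nonneg_left _ h5.le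
      nlinarith
    have hpi := Real.pi_pos
    calc C ^ (m k) * ‖1 + nu ^ (m k)‖ ≤ C ^ (m k) * (2 * Real.pi * (1 / (m k : ℝ) ^ (m k))) := by
          apply mul_le_mul_of_nonneg_left _ (by positivity)
          refine h2.trans ?_
          apply mul_le_mul_of_nonneg_left h4 (by positivity)
      _ = (2 * Real.pi) * (C / (m k : ℝ)) ^ (m k) := by
          rw [div_pow]; ring
      _ ≤ (2 * Real.pi) * (1 / 2 : ℝ) ^ (m k) := by
          apply mul_le_mul_of_nonneg_left _ (by positivity)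
          apply pow_le_pow_left₀ (by positivity)
          rw [div_le_div_iff₀ h0 (by norm_num)]
          linarith
  have hlim : Tendsto (fun k => (2 * Real.pi) * (1 / 2 : ℝ) ^ (m k)) atTop (𝓝 0) := by
    have := (tendsto_pow_atTop_nhds_zero_of_lt_one (by norm_num : (0:ℝ) ≤ 1 / 2)
      (by norm_num)).comp m_tendsto
    simpa using this.const_mul (2 * Real.pi)
  refine tendsto_of_tendsto_of_tendsto_of_le_of_le' tendsto_const_nhds hlim
    (Eventually.of_forall fun k => by positivity) hup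

theorem nu_pow_ne_one (N : ℕ) (hN : 0 < N) : nu ^ N ≠ 1 := by
  intro h
  have h1 := superexp 1 le_rfl
  have h2 : ∀ᶠ k in atTop, (1 : ℝ) ^ (m k) * ‖1 + nu ^ (m k)‖ = 2 := by
    filter_upwards [eventually_ge_atTop N] with k hk
    obtain ⟨c, hc⟩ := dvd_m hN hk
    rw [hc, pow_mul nu, h, one_pow, one_pow]
    norm_num
  have h3 : Tendsto (fun _ : ℕ => (2 : ℝ)) atTop (𝓝 0) := h1.congr' h2
  have := tendsto_nhds_unique h3 tendsto_const_nhds
  norm_num at this

theorem nu_ne_zero : nu ≠ 0 := by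
  intro h
  have := norm_nu
  rw [h] at this
  simp at this

/-- `lam = nu ^ 2`. -/
noncomputable def lam : ℂ := nu ^ 2

theorem lam_ne_zero : lam ≠ 0 := pow_ne_zero _ nu_ne_zero

theorem lam_pow_ne_one (N : ℕ) (hN : 0 < N) : lam ^ N ≠ 1 := by
  unfold lam
  rw [← pow_mul]
  exact nu_pow_ne_one _ (by omega)

theorem lam_pow_ne_neg_one (N : ℕ) : lam ^ N ≠ -1 := by
  intro h
  rcases Nat.eq_zero_or_pos N with h0 | h0
  · rw [h0, pow_zero] at h
    norm_num at h
  · apply lam_pow_ne_one (N * 2) (by omega)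
    rw [pow_mul, h]
    norm_num

/-- eigenfunctions of a rotation -/
theorem eig {φ q : ℂ → ℂ} (hφ : AnalyticAt ℂ φ 0) (hq : ContinuousAt q 0)
    (h : ∀ᶠ s in 𝓝 (0 : ℂ), φ (lam * s) = q s * φ s) (hn : ∀ n : ℕ, q 0 ≠ lam ^ n) :
    ∀ᶠ s in 𝓝 (0 : ℂ), φ s = 0 := by
  by_contra hne
  obtain ⟨n, g, hg, hg0, hgn⟩ := hφ.exists_eventuallyEq_pow_smul_nonzero_iff.mpr hne
  have ht : Tendsto (fun z : ℂ => lam * z) (𝓝 0) (𝓝 0) := by
    have : Continuous fun z : ℂ => lam * z := by fun_prop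
    simpa using this.tendsto 0
  have h1 : ∀ᶠ s in 𝓝[≠] (0 : ℂ), lam ^ n * g (lam * s) = q s * g s := by
    have h2 : ∀ᶠ s in 𝓝 (0 : ℂ), s ≠ 0 → lam ^ n * g (lam * s) = q s * g s := by
      filter_upwards [h, hgn, ht.eventually hgn] with s h3 h4 h5 hs
      rw [h4, h5] at h3
      simp only [sub_zero, smul_eq_mul] at h3
      have h6 : s ^ n ≠ 0 := pow_ne_zero _ hs
      apply mul_left_cancel₀ h6
      rw [mul_pow] at h3
      linear_combination h3
    exact eventually_nhdsWithin_of_eventually_nhds h2 |>.and self_mem_nhdsWithin |>.mono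
      fun s hs => hs.1 hs.2
  have hgc : ContinuousAt g 0 := hg.continuousAt
  have hgl : ContinuousAt (fun s => g (lam * s)) 0 := by
    apply ContinuousAt.comp_of_eq (g := g) hgc (by fun_prop) (by simp)
  have hl : Tendsto (fun s => lam ^ n * g (lam * s)) (𝓝[≠] (0 : ℂ)) (𝓝 (lam ^ n * g 0)) := by
    have h8 : ContinuousAt (fun s => lam ^ n * g (lam * s)) 0 := continuousAt_const.mul hgl
    have h9 := h8.tendsto
    simp only [mul_zero] at h9
    exact h9.mono_left nhdsWithin_le_nhds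
  have hr : Tendsto (fun s => q s * g s) (𝓝[≠] (0 : ℂ)) (𝓝 (q 0 * g 0)) :=
    (hq.mul hgc).tendsto.mono_left nhdsWithin_le_nhds
  have h7 := tendsto_nhds_unique (hl.congr' h1) hr
  exact hn n (mul_right_cancel₀ hg0 h7).symm

end Pool.Agent.S04440
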