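import Mathlib
import Pool.Agent.H41.RevA

set_option autoImplicit false
open Filter Topology

namespace Pool.Agent.S04440

open Classical in
/-- coefficients of the lacunary series -/
noncomputable def wc (n : ℕ) : ℂ := if ∃ k, m k = n then 1 else 0

theorem wc_m (k : ℕ) : wc (m k) = 1 := by
  unfold wc; rw [if_pos ⟨k, rfl⟩]

theorem wc_two_m (k : ℕ) : wc (2 * m k) = 0 := by
  unfold wc
  rw [if_neg]
  rintro ⟨j, hj⟩
  have h1 : m k < m j := by have := m_ge_two k; omega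
  have h2 : k < j := m_strictMono.lt_iff_lt.mp h1
  have h3 : m (k + 1) ≤ m j := m_strictMono.monotone h2
  have := m_succ_gt k
  omega

theorem wc_half_m (k : ℕ) (h : Even (m k)) : wc (m k / 2) = 0 := by
  unfold wc
  rw [if_neg]
  rintro ⟨j, hj⟩
  obtain ⟨c, hc⟩ := h
  have h0 : m k = 2 * m j := by omega
  have h1 : m j < m k := by have := m_ge_two j; omega
  have h2 : j < k := m_strictMono.lt_iff_lt.mp h1
  have h3 : m (j + 1) ≤ m k := m_strictMono.monotone h2
  have := m_succ_gt j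
  omega

noncomputable def W0 : ℂ → ℂ := W wc

theorem PS_W0 : PS W0 wc := PS_W wc (fun n => by unfold wc; split_ifs <;> simp)

theorem W0_zero : W0 0 = 0 := by
  unfold W0 W
  have : ∀ n, wc n * (0 : ℂ) ^ n = 0 := by
    intro n
    rcases Nat.eq_zero_or_pos n with h | h
    · subst h
      have : wc 0 = 0 := by
        unfold wc
        rw [if_neg]
        rintro ⟨j, hj⟩
        have := m_ge_two j
        omega
      rw [this, zero_mul]
    · rw [zero_pow (by omega), mul_zero]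
  simp [this]

theorem PS.analyticAt {F : ℂ → ℂ} {a : ℕ → ℂ} (h : PS F a) : AnalyticAt ℂ F 0 :=
  h.hasFPowerSeriesAt.analyticAt

theorem W0_analytic : AnalyticAt ℂ W0 0 := PS_W0.analyticAt

noncomputable def U1 (s : ℂ) : ℂ := W0 s - W0 (nu * s)
noncomputable def U2 (s : ℂ) : ℂ := U1 s + U1 (lam * s)

/-- Taylor coefficients of `U1`, `U2` -/
noncomputable def c1 (n : ℕ) : ℂ := wc n - nu ^ n * wc n
noncomputable def c2 (n : ℕ) : ℂ := c1 n + lam ^ n * c1 n

theorem PS_U1 : PS U1 c1 := PS_W0.sub (PS_W0.comp_mul nu)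
theorem PS_U2 : PS U2 c2 := PS_U1.add (PS_U1.comp_mul lam)

theorem U1_zero : U1 0 = 0 := by simp [U1]
theorem U2_zero : U2 0 = 0 := by simp [U2, U1_zero]

theorem U1_id (s : ℂ) : U1 s + U1 (nu * s) = W0 s - W0 (lam * s) := by
  unfold U1 lam
  rw [show nu * (nu * s) = nu ^ 2 * s by ring]
  ring

theorem U2_id (s : ℂ) : U2 s + U2 (nu * s) = W0 s - W0 (lam ^ 2 * s) := by
  have h1 := U1_id s
  have h2 := U1_id (lam * s)
  unfold U2
  rw [show lam * (nu * s) = nu * (lam * s) by ring]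
  rw [show lam ^ 2 * s = lam * (lam * s) by ring]
  linear_combination h1 + h2

noncomputable def u (p : Fin 4 → ℂ) : ℂ :=
  U1 (p 0 * p 2) + U2 (p 0 ^ 2 * p 2) + U1 (lam⁻¹ * (p 1 * p 2)) + U2 (lam⁻¹ ^ 2 * (p 1 ^ 2 * p 2))

noncomputable def w (p : Fin 4 → ℂ) : ℂ :=
  W0 (p 0 * p 2) + W0 (p 0 ^ 2 * p 2) - W0 (p 1 * p 2) - W0 (p 1 ^ 2 * p 2)

/-- the reversible germ -/
noncomputable def f (p : Fin 4 → ℂ) : Fin 4 → ℂ :=
  ![lam * p 0, lam⁻¹ * p 1, p 2, - Complex.exp (u p) * p 3]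

/-- its inverse -/
noncomputable def finv (p : Fin 4 → ℂ) : Fin 4 → ℂ :=
  ![lam⁻¹ * p 0, lam * p 1, p 2, - Complex.exp (- u ![lam⁻¹ * p 0, lam * p 1, p 2, 0]) * p 3]

/-- the reverser -/
noncomputable def h (p : Fin 4 → ℂ) : Fin 4 → ℂ :=
  ![p 1, p 0, nu * p 2, Complex.exp (w p) * p 3]

noncomputable def hinv (p : Fin 4 → ℂ) : Fin 4 → ℂ :=
  ![p 1, p 0, nu⁻¹ * p 2, Complex.exp (- w ![p 1, p 0, nu⁻¹ * p 2, 0]) * p 3]

theorem u_mk (a b c d : ℂ) : u ![a, b, c, d] =
    U1 (a * c) + U2 (a ^ 2 * c) + U1 (lam⁻¹ * (b * c)) + U2 (lam⁻¹ ^ 2 * (b ^ 2 * c)) := by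
  simp [u]

theorem w_mk (a b c d : ℂ) : w ![a, b, c, d] =
    W0 (a * c) + W0 (a ^ 2 * c) - W0 (b * c) - W0 (b ^ 2 * c) := by
  simp [w]

theorem f_mk (a b c d : ℂ) : f ![a, b, c, d] =
    ![lam * a, lam⁻¹ * b, c, - Complex.exp (u ![a, b, c, 0]) * d] := by
  simp only [f, u_mk]
  simp

theorem h_mk (a b c d : ℂ) : h ![a, b, c, d] =
    ![b, a, nu * c, Complex.exp (w ![a, b, c, 0]) * d] := by
  simp only [h, w_mk]
  simp

theorem vec_eta (p : Fin 4 → ℂ) : p = ![p 0, p 1, p 2, p 3] := by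
  funext i; fin_cases i <;> rfl

theorem fhf (p : Fin 4 → ℂ) : f (h (f p)) = h p := by
  rw [vec_eta p]
  generalize p 0 = a, p 1 = b, p 2 = c, p 3 = d
  rw [f_mk, h_mk, f_mk, h_mk]
  have hl := lam_ne_zero
  have e0 : lam * (lam⁻¹ * b) = b := by field_simp
  have e1 : lam⁻¹ * (lam * a) = a := by field_simp
  rw [e0, e1]
  have key : w ![a, b, c, 0] = u ![lam⁻¹ * b, lam * a, nu * c, 0] +
      w ![lam * a, lam⁻¹ * b, c, 0] + u ![a, b, c, 0] := by
    simp only [u_mk, w_mk]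
    have i1 := U1_id (a * c)
    have i2 := U1_id (lam⁻¹ * (b * c))
    have i3 := U2_id (a ^ 2 * c)
    have i4 := U2_id (lam⁻¹ ^ 2 * (b ^ 2 * c))
    rw [show lam * (lam⁻¹ * (b * c)) = b * c by field_simp] at i2
    rw [show lam ^ 2 * (lam⁻¹ ^ 2 * (b ^ 2 * c)) = b ^ 2 * c by field_simp] at i4
    rw [show lam⁻¹ * b * (nu * c) = nu * (lam⁻¹ * (b * c)) by ring,
      show (lam⁻¹ * b) ^ 2 * (nu * c) = nu * (lam⁻¹ ^ 2 * (b ^ 2 * c)) by ring,
      show lam⁻¹ * (lam * a * (nu * c)) = nu * (a * c) by field_simp,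
      show lam⁻¹ ^ 2 * ((lam * a) ^ 2 * (nu * c)) = nu * (a ^ 2 * c) by field_simp,
      show lam * a * c = lam * (a * c) by ring,
      show (lam * a) ^ 2 * c = lam ^ 2 * (a ^ 2 * c) by ring,
      show lam⁻¹ * b * c = lam⁻¹ * (b * c) by ring,
      show (lam⁻¹ * b) ^ 2 * c = lam⁻¹ ^ 2 * (b ^ 2 * c) by ring]
    linear_combination (-1) * i1 - i2 - i3 - i4
  rw [key, Complex.exp_add, Complex.exp_add]
  congr 1
  funext i
  fin_cases i
  · rfl
  · rfl
  · simp
    ring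

theorem finv_f (p : Fin 4 → ℂ) : finv (f p) = p := by
  rw [vec_eta p]
  generalize p 0 = a, p 1 = b, p 2 = c, p 3 = d
  rw [f_mk]
  have hl := lam_ne_zero
  funext i
  fin_cases i
  · simp [finv]; field_simp
  · simp [finv]; field_simp
  · simp [finv]
  · simp [finv]
    rw [show lam⁻¹ * (lam * a) = a by field_simp, show lam * (lam⁻¹ * b) = b by field_simp,
      ← mul_assoc, ← Complex.exp_add]
    simp

theorem f_finv (p : Fin 4 → ℂ) : f (finv p) = p := by
  rw [vec_eta p]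
  generalize p 0 = a, p 1 = b, p 2 = c, p 3 = d
  have hl := lam_ne_zero
  have : finv ![a, b, c, d] = ![lam⁻¹ * a, lam * b, c, - Complex.exp (- u ![lam⁻¹ * a, lam * b, c, 0]) * d] := by
    simp [finv]
  rw [this, f_mk]
  funext i
  fin_cases i
  · simp; field_simp
  · simp; field_simp
  · simp
  · simp
    rw [← mul_assoc, ← Complex.exp_add]
    simp

theorem hinv_h (p : Fin 4 → ℂ) : hinv (h p) = p := by
  rw [vec_eta p]
  generalize p 0 = a, p 1 = b, p 2 = c, p 3 = d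
  rw [h_mk]
  have hl := nu_ne_zero
  funext i
  fin_cases i
  · simp [hinv]
  · simp [hinv]
  · simp [hinv]; field_simp
  · simp [hinv]
    rw [show nu⁻¹ * (nu * c) = c by field_simp,
      ← mul_assoc, ← Complex.exp_add]
    simp

theorem h_hinv (p : Fin 4 → ℂ) : h (hinv p) = p := by
  rw [vec_eta p]
  generalize p 0 = a, p 1 = b, p 2 = c, p 3 = d
  have hl := nu_ne_zero
  have : hinv ![a, b, c, d] = ![b, a, nu⁻¹ * c, Complex.exp (- w ![b, a, nu⁻¹ * c, 0]) * d] := by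
    simp [hinv]
  rw [this, h_mk]
  funext i
  fin_cases i
  · simp
  · simp
  · simp; field_simp
  · simp
    rw [← mul_assoc, ← Complex.exp_add]
    simp

theorem pr_analytic (i : Fin 4) (p : Fin 4 → ℂ) : AnalyticAt ℂ (fun q : Fin 4 → ℂ => q i) p :=
  (ContinuousLinearMap.proj (R := ℂ) (φ := fun _ : Fin 4 => ℂ) i).analyticAt p

theorem U1_analytic : AnalyticAt ℂ U1 0 := PS_U1.analyticAt
theorem U2_analytic : AnalyticAt ℂ U2 0 := PS_U2.analyticAt

theorem u_analytic (p : Fin 4 → ℂ) (h0 : p 0 = 0) (h1 : p 1 = 0) : AnalyticAt ℂ u p := by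
  have a0 := pr_analytic 0 p
  have a1 := pr_analytic 1 p
  have a2 := pr_analytic 2 p
  unfold u
  refine ((?_ : AnalyticAt ℂ _ p).add ?_ |>.add ?_).add ?_
  · exact U1_analytic.comp_of_eq (a0.mul a2) (by simp [h0])
  · exact U2_analytic.comp_of_eq ((a0.pow 2).mul a2) (by simp [h0])
  · exact U1_analytic.comp_of_eq (analyticAt_const.mul (a1.mul a2)) (by simp [h1])
  · exact U2_analytic.comp_of_eq (analyticAt_const.mul ((a1.pow 2).mul a2)) (by simp [h1])

theorem w_analytic (p : Fin 4 → ℂ) (h0 : p 0 = 0) (h1 : p 1 = 0) : AnalyticAt ℂ w p := by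
  have a0 := pr_analytic 0 p
  have a1 := pr_analytic 1 p
  have a2 := pr_analytic 2 p
  unfold w
  refine ((?_ : AnalyticAt ℂ _ p).add ?_ |>.sub ?_).sub ?_
  · exact W0_analytic.comp_of_eq (a0.mul a2) (by simp [h0])
  · exact W0_analytic.comp_of_eq ((a0.pow 2).mul a2) (by simp [h0])
  · exact W0_analytic.comp_of_eq (a1.mul a2) (by simp [h1])
  · exact W0_analytic.comp_of_eq ((a1.pow 2).mul a2) (by simp [h1])

theorem analyticAt_vec {F : (Fin 4 → ℂ) → (Fin 4 → ℂ)} {p : Fin 4 → ℂ}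
    (h : ∀ i, AnalyticAt ℂ (fun q => F q i) p) : AnalyticAt ℂ F p := by
  rw [analyticAt_pi_iff]; exact h

theorem f_analytic (p : Fin 4 → ℂ) (h0 : p 0 = 0) (h1 : p 1 = 0) : AnalyticAt ℂ f p := by
  apply analyticAt_vec
  intro i
  fin_cases i
  · exact analyticAt_const.mul (pr_analytic 0 p)
  · exact analyticAt_const.mul (pr_analytic 1 p)
  · exact pr_analytic 2 p
  · exact ((u_analytic p h0 h1).cexp.neg).mul (pr_analytic 3 p)

theorem h_analytic (p : Fin 4 → ℂ) (h0 : p 0 = 0) (h1 : p 1 = 0) : AnalyticAt ℂ h p := by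
  apply analyticAt_vec
  intro i
  fin_cases i
  · exact pr_analytic 1 p
  · exact pr_analytic 0 p
  · exact analyticAt_const.mul (pr_analytic 2 p)
  · exact ((w_analytic p h0 h1).cexp).mul (pr_analytic 3 p)

theorem finv_analytic : AnalyticAt ℂ finv 0 := by
  have hv : AnalyticAt ℂ (fun p : Fin 4 → ℂ => ![lam⁻¹ * p 0, lam * p 1, p 2, 0]) 0 := by
    apply analyticAt_vec
    intro i
    fin_cases i
    · exact analyticAt_const.mul (pr_analytic 0 _)
    · exact analyticAt_const.mul (pr_analytic 1 _)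
    · exact pr_analytic 2 _
    · exact analyticAt_const
  apply analyticAt_vec
  intro i
  fin_cases i
  · exact analyticAt_const.mul (pr_analytic 0 _)
  · exact analyticAt_const.mul (pr_analytic 1 _)
  · exact pr_analytic 2 _
  · refine (AnalyticAt.cexp (AnalyticAt.neg ?_)).neg.mul (pr_analytic 3 _)
    exact (u_analytic ![0, 0, 0, 0] rfl rfl).comp_of_eq hv (by simp)

theorem hinv_analytic : AnalyticAt ℂ hinv 0 := by
  have hv : AnalyticAt ℂ (fun p : Fin 4 → ℂ => ![p 1, p 0, nu⁻¹ * p 2, 0]) 0 := by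
    apply analyticAt_vec
    intro i
    fin_cases i
    · exact pr_analytic 1 _
    · exact pr_analytic 0 _
    · exact analyticAt_const.mul (pr_analytic 2 _)
    · exact analyticAt_const
  apply analyticAt_vec
  intro i
  fin_cases i
  · exact pr_analytic 1 _
  · exact pr_analytic 0 _
  · exact analyticAt_const.mul (pr_analytic 2 _)
  · refine (AnalyticAt.cexp (AnalyticAt.neg ?_)).mul (pr_analytic 3 _)
    exact (w_analytic ![0, 0, 0, 0] rfl rfl).comp_of_eq hv (by simp)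

theorem f_zero : f 0 = 0 := by
  funext i; fin_cases i <;> simp [f]
theorem h_zero : h 0 = 0 := by
  funext i; fin_cases i <;> simp [h]
theorem finv_zero : finv 0 = 0 := by
  funext i; fin_cases i <;> simp [finv]
theorem hinv_zero : hinv 0 = 0 := by
  funext i; fin_cases i <;> simp [hinv]

end Pool.Agent.S04440
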