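import Mathlib
import Pool.Agent.H41.RevB

set_option autoImplicit false
open Filter Topology

namespace Pool.Agent.S04440

theorem tendsto_lam_mul : Tendsto (fun z : ℂ => lam * z) (𝓝 0) (𝓝 0) := by
  have : Continuous fun z : ℂ => lam * z := by fun_prop
  simpa using this.tendsto 0

/-- rotation invariant germs are constant -/
theorem inv_const {g : ℂ → ℂ} (hg : AnalyticAt ℂ g 0)
    (hinv0 : ∀ᶠ s in 𝓝 (0 : ℂ), g (lam * s) = g s) : ∀ᶠ s in 𝓝 (0 : ℂ), g s = g 0 := by
  have hl := lam_ne_zero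
  have hgc : ∀ᶠ s in 𝓝 (0 : ℂ), g s - g 0 = 0 := by
    by_contra hne
    have hga : AnalyticAt ℂ (fun s => g s - g 0) 0 := hg.sub analyticAt_const
    obtain ⟨n, k, hk, hk0, hkn⟩ := hga.exists_eventuallyEq_pow_smul_nonzero_iff.mpr hne
    have hn0 : n ≠ 0 := by
      intro hn
      subst hn
      have := hkn.self_of_nhds
      simp at this
      exact hk0 this.symm
    have hinv : ∀ᶠ s in 𝓝 (0 : ℂ), k (lam * s) = (lam ^ n)⁻¹ * k s := by
      have h1 : ∀ᶠ s in 𝓝[≠] (0 : ℂ), k (lam * s) = (lam ^ n)⁻¹ * k s := by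
        have h2 : ∀ᶠ s in 𝓝 (0 : ℂ), s ≠ 0 → k (lam * s) = (lam ^ n)⁻¹ * k s := by
          filter_upwards [hinv0, hkn, tendsto_lam_mul.eventually hkn] with s h3 h4 h5 hs
          simp only [sub_zero, smul_eq_mul] at h4 h5
          have h6 : s ^ n ≠ 0 := pow_ne_zero _ hs
          have h7 : lam ^ n ≠ 0 := pow_ne_zero _ hl
          rw [mul_pow] at h5
          field_simp
          apply mul_left_cancel₀ h6
          linear_combination h3 + h4 - h5
        exact eventually_nhdsWithin_of_eventually_nhds h2 |>.and self_mem_nhdsWithin |>.mono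
          fun s hs => hs.1 hs.2
      have hk1 : AnalyticAt ℂ (fun s => k (lam * s)) 0 :=
        hk.comp_of_eq (analyticAt_const.mul analyticAt_id) (by simp)
      have hk2 : AnalyticAt ℂ (fun s => (lam ^ n)⁻¹ * k s) 0 := analyticAt_const.mul hk
      exact (hk1.frequently_eq_iff_eventually_eq hk2).mp h1.frequently
    have := hinv.self_of_nhds
    rw [mul_zero] at this
    have h8 : (lam ^ n)⁻¹ = 1 := by
      apply mul_right_cancel₀ hk0
      rw [one_mul]; exact this.symm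
    exact lam_pow_ne_one n (Nat.pos_of_ne_zero hn0) (inv_eq_one.mp h8)
  filter_upwards [hgc] with s hs
  exact sub_eq_zero.mp hs

theorem u_eq_zero (p : Fin 4 → ℂ) (h0 : p 0 = 0) (h1 : p 1 = 0) : u p = 0 := by
  simp [u, h0, h1, U1_zero, U2_zero]

/-- Structure of a reverser on the curves `s ↦ (s, 0, ξ, 0)`. -/
theorem slice {G : ℂ → Fin 4 → ℂ} (hG : AnalyticAt ℂ G 0)
    (hfG : ∀ᶠ s in 𝓝 (0 : ℂ), f (G (lam * s)) = G s) :
    ∃ b : ℂ, ∀ᶠ s in 𝓝 (0 : ℂ), G s = ![0, b * s, G 0 2, 0] := by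
  have hGi : ∀ i, AnalyticAt ℂ (fun s => G s i) 0 := fun i => analyticAt_pi_iff.mp hG i
  have hl := lam_ne_zero
  -- component 0
  have e0 : ∀ᶠ s in 𝓝 (0 : ℂ), G (lam * s) 0 = lam⁻¹ * G s 0 := by
    filter_upwards [hfG] with s hs
    have := congrFun hs 0
    simp only [f, Matrix.cons_val_zero] at this
    rw [← this]
    field_simp
  have h0 : ∀ᶠ s in 𝓝 (0 : ℂ), G s 0 = 0 := by
    apply eig (hGi 0) (q := fun _ => lam⁻¹) continuousAt_const e0
    intro n hn
    apply lam_pow_ne_one (n + 1) (by omega)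
    rw [pow_succ, ← hn]
    field_simp
  -- component 1
  have e1 : ∀ᶠ s in 𝓝 (0 : ℂ), G (lam * s) 1 = lam * G s 1 := by
    filter_upwards [hfG] with s hs
    have := congrFun hs 1
    simp only [f, Matrix.cons_val_one, Matrix.cons_val_zero] at this
    rw [← this]
    field_simp
  have h10 : G 0 1 = 0 := by
    have := e1.self_of_nhds
    rw [mul_zero] at this
    have h1 : (lam - 1) * G 0 1 = 0 := by linear_combination (-1) * this
    rcases mul_eq_zero.mp h1 with h2 | h2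
    · exfalso
      apply lam_pow_ne_one 1 one_pos
      rw [pow_one]
      exact sub_eq_zero.mp h2
    · exact h2
  -- write G s 1 = s * g s with g invariant
  obtain ⟨g, hg, hgs⟩ : ∃ g : ℂ → ℂ, AnalyticAt ℂ g 0 ∧ ∀ᶠ s in 𝓝 (0 : ℂ), G s 1 = s * g s := by
    refine ⟨dslope (fun s => G s 1) 0, ?_, ?_⟩
    · obtain ⟨p, hp⟩ := hGi 1
      exact ⟨_, hp.has_fpower_series_dslope_fslope⟩
    · refine Eventually.of_forall fun s => ?_
      have := sub_smul_dslope (fun s => G s 1) 0 s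
      simp only [sub_zero, smul_eq_mul, h10] at this
      exact this.symm
  have hginv : ∀ᶠ s in 𝓝 (0 : ℂ), g (lam * s) = g s := by
    filter_upwards [e1, hgs, tendsto_lam_mul.eventually hgs] with s h1 h2 h3
    by_cases hs : s = 0
    · subst hs; simp
    rw [h2, h3] at h1
    have : lam * s ≠ 0 := mul_ne_zero hl hs
    apply mul_left_cancel₀ this
    linear_combination h1
  have h1 : ∀ᶠ s in 𝓝 (0 : ℂ), G s 1 = g 0 * s := by
    filter_upwards [inv_const hg hginv, hgs] with s h1 h2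
    rw [h2, h1, mul_comm]
  -- component 2
  have e2 : ∀ᶠ s in 𝓝 (0 : ℂ), G (lam * s) 2 = G s 2 := by
    filter_upwards [hfG] with s hs
    have := congrFun hs 2
    simpa [f] using this
  have h2 : ∀ᶠ s in 𝓝 (0 : ℂ), G s 2 = G 0 2 := inv_const (hGi 2) e2
  -- component 3
  have h00 : G 0 0 = 0 := h0.self_of_nhds
  have e3 : ∀ᶠ s in 𝓝 (0 : ℂ), G (lam * s) 3 = (- Complex.exp (- u (G (lam * s)))) * G s 3 := by
    filter_upwards [hfG] with s hs
    have h3 := congrFun hs 3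
    simp only [f] at h3
    rw [← h3]
    simp only [Matrix.cons_val]
    rw [neg_mul, neg_mul, mul_neg, neg_neg, ← mul_assoc, ← Complex.exp_add]
    simp
  have hlamG : AnalyticAt ℂ (fun s => G (lam * s)) 0 :=
    AnalyticAt.comp_of_eq (g := G) hG (analyticAt_const.mul analyticAt_id) (by simp)
  have hu : AnalyticAt ℂ (fun s => u (G (lam * s))) 0 :=
    AnalyticAt.comp_of_eq (g := u) (u_analytic (G 0) h00 h10) hlamG (by simp)
  have h3 : ∀ᶠ s in 𝓝 (0 : ℂ), G s 3 = 0 := by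
    apply eig (hGi 3) (q := fun s => - Complex.exp (- u (G (lam * s)))) hu.neg.cexp.neg.continuousAt e3
    intro n hn
    simp only [mul_zero] at hn
    rw [u_eq_zero _ h00 h10] at hn
    simp at hn
    exact lam_pow_ne_neg_one n hn.symm
  refine ⟨g 0, ?_⟩
  filter_upwards [h0, h1, h2, h3] with s a0 a1 a2 a3
  funext i
  fin_cases i
  · exact a0
  · exact a1
  · exact a2
  · exact a3

/-- consequence of the cohomological equation along a slice -/
theorem slice_estimate (b c ξ : ℂ) (β : ℂ → ℂ) (hβ : AnalyticAt ℂ β 0) (hβ0 : β 0 ≠ 0)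
    (hrel : ∀ᶠ s in 𝓝 (0 : ℂ), β s = Complex.exp (U1 (ξ * s) + U2 (ξ * s ^ 2) +
      U1 (b * c * s) + U2 (b ^ 2 * c * s ^ 2)) * β (lam * s)) :
    ∃ C R : ℝ, 1 ≤ R ∧ ∀ k,
      ‖ξ ^ (m k) + (b * c) ^ (m k)‖ ≤ C * R ^ (m k) * ‖1 + nu ^ (m k)‖ ∧
      ‖ξ ^ (m k) + (b ^ 2 * c) ^ (m k)‖ ≤ C * R ^ (m k) * ‖1 + nu ^ (m k)‖ := by
  set E : ℂ → ℂ := fun s => U1 (ξ * s) + U2 (ξ * s ^ 2) +
      U1 (b * c * s) + U2 (b ^ 2 * c * s ^ 2) with hE
  have hE0 : E 0 = 0 := by simp [hE, U1_zero, U2_zero]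
  set L : ℂ → ℂ := fun s => Complex.log (β s / β 0) with hL
  have hL0 : L 0 = 0 := by simp [hL]
  have hquot : AnalyticAt ℂ (fun s => β s / β 0) 0 := hβ.div analyticAt_const hβ0
  have hLa : AnalyticAt ℂ L 0 := by
    apply hquot.clog
    simp [div_self hβ0]
  -- power series of E
  have hEps : PS E (fun n => (ξ ^ n * c1 n + dbl (fun j => ξ ^ j * c2 j) n) + (b * c) ^ n * c1 n +
      dbl (fun j => (b ^ 2 * c) ^ j * c2 j) n) :=
    (((PS_U1.comp_mul ξ).add ((PS_U2.comp_mul ξ).comp_sq)).add (PS_U1.comp_mul (b * c))).add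
      ((PS_U2.comp_mul (b ^ 2 * c)).comp_sq)
  have hEa : AnalyticAt ℂ E 0 := hEps.analyticAt
  obtain ⟨a, ha⟩ := PS.exists_of_analyticAt hLa
  -- L (lam s) - L s + E s = 0
  have hLlam : AnalyticAt ℂ (fun s => L (lam * s)) 0 :=
    AnalyticAt.comp_of_eq (g := L) hLa (analyticAt_const.mul analyticAt_id) (by simp)
  have hΦa : AnalyticAt ℂ (fun s => L (lam * s) - L s + E s) 0 := (hLlam.sub hLa).add hEa
  have hΦ : ∀ᶠ s in 𝓝 (0 : ℂ), L (lam * s) - L s + E s = 0 := by
    have hne : ∀ᶠ s in 𝓝 (0 : ℂ), β s ≠ 0 := hβ.continuousAt.eventually_ne hβ0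
    have hsmall : ∀ᶠ s in 𝓝 (0 : ℂ), ‖L (lam * s) - L s + E s‖ < 1 := by
      have h1 := hΦa.continuousAt.norm
      have h2 : ‖L (lam * 0) - L 0 + E 0‖ < 1 := by
        rw [mul_zero, hL0, hE0]; simp
      exact h1.eventually_lt continuousAt_const h2
    filter_upwards [hne, tendsto_lam_mul.eventually hne, hsmall, hrel] with s h1 h2 h3 h4
    have h5 : Complex.exp (L (lam * s) - L s + E s) = 1 := by
      rw [Complex.exp_add, Complex.exp_sub]
      simp only [hL]
      rw [Complex.exp_log (div_ne_zero h2 hβ0), Complex.exp_log (div_ne_zero h1 hβ0)]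
      have h6 : β s = Complex.exp (E s) * β (lam * s) := h4
      rw [h6]
      have h7 : Complex.exp (E s) ≠ 0 := Complex.exp_ne_zero _
      field_simp
    have h6 : |(L (lam * s) - L s + E s).im| < 1 := lt_of_le_of_lt (Complex.abs_im_le_norm _) h3
    have hpi := Real.pi_gt_three
    rw [← Complex.log_exp (x := L (lam * s) - L s + E s), h5, Complex.log_one]
    · have := (abs_lt.mp h6).1; linarith
    · have := (abs_lt.mp h6).2; linarith
  have hcoef := PS.unique (((ha.comp_mul lam).sub ha).add hEps)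
    (PS.congr (F := fun _ => 0) (a := fun _ => 0) (by
      unfold PS; refine Eventually.of_forall fun z => ?_; simp [hasSum_zero]) (by
      filter_upwards [hΦ] with s hs; exact hs.symm))
  obtain ⟨C, R, hC, hR, hbd⟩ := ha.bound
  refine ⟨C, R ^ 2, one_le_pow₀ hR, ?_⟩
  intro k
  have hnum : nu ^ (m k) ≠ 1 := nu_pow_ne_one _ (by have := m_ge_two k; omega)
  have hnum' : nu ^ (m k) - 1 ≠ 0 := sub_ne_zero.mpr hnum
  have hlm : lam ^ (m k) + 1 ≠ 0 := by
    intro h
    exact lam_pow_ne_neg_one (m k) (eq_neg_of_add_eq_zero_left h)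
  have hlam2 : lam ^ (m k) = nu ^ (m k) * nu ^ (m k) := by
    unfold lam; rw [← pow_mul, mul_comm 2, pow_mul, sq]
  constructor
  · have h1 := congrFun hcoef (m k)
    have h2 : ∀ x : ℂ, dbl (fun j => x ^ j * c2 j) (m k) = 0 := by
      intro x
      unfold dbl
      split_ifs with he
      · simp [c2, c1, wc_half_m k he]
      · rfl
    rw [h2, h2] at h1
    simp only [c1, wc_m] at h1
    have h3 : ξ ^ (m k) + (b * c) ^ (m k) = a (m k) * (1 + nu ^ (m k)) := by
      apply mul_left_cancel₀ hnum'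
      rw [hlam2] at h1
      linear_combination (-1) * h1
    rw [h3, norm_mul]
    apply mul_le_mul_of_nonneg_right _ (norm_nonneg _)
    refine (hbd (m k)).trans ?_
    apply mul_le_mul_of_nonneg_left _ hC.le
    rw [← pow_mul]
    exact pow_le_pow_right₀ hR (by omega)
  · have h1 := congrFun hcoef (2 * m k)
    have h2 : ∀ x : ℂ, dbl (fun j => x ^ j * c2 j) (2 * m k) = x ^ (m k) * c2 (m k) := by
      intro x
      unfold dbl
      rw [if_pos (even_two_mul _)]
      simp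
    rw [h2, h2] at h1
    simp only [c2, c1, wc_m, wc_two_m] at h1
    have h3 : ξ ^ (m k) + (b ^ 2 * c) ^ (m k) = a (2 * m k) * (1 + nu ^ (m k)) := by
      apply mul_left_cancel₀ hnum'
      apply mul_left_cancel₀ hlm
      have h4 : lam ^ (2 * m k) = lam ^ (m k) * lam ^ (m k) := by ring
      rw [h4] at h1
      rw [hlam2] at h1 ⊢
      linear_combination (-1) * h1
    rw [h3, norm_mul]
    apply mul_le_mul_of_nonneg_right _ (norm_nonneg _)
    refine (hbd (2 * m k)).trans ?_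
    rw [← pow_mul]

/-- conclusion along a slice -/
theorem slice_limit (b c ξ : ℂ) (hξ : ξ ≠ 0) (C R : ℝ) (hR : 1 ≤ R)
    (h : ∀ k, ‖ξ ^ (m k) + (b * c) ^ (m k)‖ ≤ C * R ^ (m k) * ‖1 + nu ^ (m k)‖ ∧
      ‖ξ ^ (m k) + (b ^ 2 * c) ^ (m k)‖ ≤ C * R ^ (m k) * ‖1 + nu ^ (m k)‖) :
    Tendsto (fun k => (c / ξ) ^ (m k)) atTop (𝓝 (-1)) := by
  have hξn : 0 < ‖ξ‖ := norm_pos_iff.mpr hξ
  have key : ∀ x : ℂ, (∀ k, ‖ξ ^ (m k) + x ^ (m k)‖ ≤ C * R ^ (m k) * ‖1 + nu ^ (m k)‖) →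
      Tendsto (fun k => (x / ξ) ^ (m k)) atTop (𝓝 (-1)) := by
    intro x hx
    have hlim : Tendsto (fun k => |C| * ((R / min ‖ξ‖ 1) ^ (m k) * ‖1 + nu ^ (m k)‖)) atTop (𝓝 0) := by
      have h1 : 1 ≤ R / min ‖ξ‖ 1 := by
        rw [le_div_iff₀ (lt_min hξn one_pos), one_mul]
        exact (min_le_right _ _).trans hR
      have := (superexp _ h1).const_mul |C|
      simpa using this
    rw [tendsto_iff_norm_sub_tendsto_zero]
    refine squeeze_zero (fun _ => norm_nonneg _) (fun k => ?_) hlim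
    have h2 : (x / ξ) ^ (m k) - (-1) = (ξ ^ (m k) + x ^ (m k)) / ξ ^ (m k) := by
      rw [div_pow]; field_simp; ring
    rw [h2, norm_div, norm_pow, div_le_iff₀ (by positivity)]
    refine (hx k).trans ?_
    have h3 : min ‖ξ‖ 1 ≤ ‖ξ‖ := min_le_left _ _
    have h4 : 0 < min ‖ξ‖ 1 := lt_min hξn one_pos
    calc C * R ^ (m k) * ‖1 + nu ^ (m k)‖ ≤ |C| * R ^ (m k) * ‖1 + nu ^ (m k)‖ := by
          gcongr
          exact le_abs_self C
      _ = |C| * ((R / min ‖ξ‖ 1) ^ (m k) * ‖1 + nu ^ (m k)‖) * (min ‖ξ‖ 1) ^ (m k) := by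
          rw [div_pow]; field_simp
      _ ≤ |C| * ((R / min ‖ξ‖ 1) ^ (m k) * ‖1 + nu ^ (m k)‖) * ‖ξ‖ ^ (m k) := by
          gcongr
  have hP := key (b * c) fun k => (h k).1
  have hQ := key (b ^ 2 * c) fun k => (h k).2
  have hPP := (hP.mul hP).div hQ (by norm_num)
  have hQne : b * c ≠ 0 := by
    intro h0
    have h1 : ∀ k, (b * c / ξ) ^ (m k) = 0 := by
      intro k
      rw [h0, zero_div, zero_pow (by have := m_ge_two k; omega)]
    have h2 : Tendsto (fun _ : ℕ => (0 : ℂ)) atTop (𝓝 (-1)) := hP.congr h1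
    have h3 := tendsto_nhds_unique h2 tendsto_const_nhds
    norm_num at h3
  have hb : b ≠ 0 := left_ne_zero_of_mul hQne
  have hc : c ≠ 0 := right_ne_zero_of_mul hQne
  have hfin : ∀ k, (b * c / ξ) ^ (m k) * (b * c / ξ) ^ (m k) / (b ^ 2 * c / ξ) ^ (m k) =
      (c / ξ) ^ (m k) := by
    intro k
    rw [← mul_pow, ← div_pow]
    congr 1
    field_simp
  have := hPP.congr hfin
  simpa using this

end Pool.Agent.S04440
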