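import Mathlib
import Pool.Agent.H41.RevC

set_option autoImplicit false
open Filter Topology

namespace Pool.Agent.S04440

theorem analytic_line (s0 ξ0 z0 : ℂ) : AnalyticAt ℂ (fun s : ℂ => (![s, 0, ξ0, z0] : Fin 4 → ℂ)) s0 := by
  rw [analyticAt_pi_iff]
  intro i
  fin_cases i
  · exact analyticAt_id
  · exact analyticAt_const
  · exact analyticAt_const
  · exact analyticAt_const

theorem analytic_axis (ξ : ℂ) : AnalyticAt ℂ (fun ξ : ℂ => (![0, 0, ξ, 0] : Fin 4 → ℂ)) ξ := by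
  rw [analyticAt_pi_iff]
  intro i
  fin_cases i
  · exact analyticAt_const
  · exact analyticAt_const
  · exact analyticAt_id
  · exact analyticAt_const

theorem vec_zero : (![0, 0, 0, 0] : Fin 4 → ℂ) = 0 := by
  funext i; fin_cases i <;> rfl

theorem f_line (s ξ : ℂ) : f ![s, 0, ξ, 0] = ![lam * s, 0, ξ, 0] := by
  rw [f_mk]; simp

theorem hasDerivAt_fiber (s ξ c : ℂ) :
    HasDerivAt (fun z : ℂ => (![s, 0, ξ, c * z] : Fin 4 → ℂ)) (c • Pi.single 3 1) 0 := by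
  rw [hasDerivAt_pi]
  intro i
  fin_cases i
  · simpa using hasDerivAt_const (0 : ℂ) s
  · simpa using hasDerivAt_const (0 : ℂ) (0 : ℂ)
  · simpa using hasDerivAt_const (0 : ℂ) ξ
  · simpa using (hasDerivAt_id (0 : ℂ)).const_mul c

theorem beta_rel {k : (Fin 4 → ℂ) → (Fin 4 → ℂ)} {s ξ : ℂ}
    (h1 : DifferentiableAt ℂ k ![s, 0, ξ, 0])
    (h2 : DifferentiableAt ℂ k ![lam * s, 0, ξ, 0])
    (h3 : DifferentiableAt ℂ u (k ![lam * s, 0, ξ, 0]))
    (h4 : k ![lam * s, 0, ξ, 0] 3 = 0)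
    (h5 : ∀ᶠ q in 𝓝 ![s, 0, ξ, 0], f (k (f q)) = k q) :
    fderiv ℂ k ![s, 0, ξ, 0] (Pi.single 3 1) 3 =
      Complex.exp (u (k ![lam * s, 0, ξ, 0]) + u ![s, 0, ξ, 0]) *
        fderiv ℂ k ![lam * s, 0, ξ, 0] (Pi.single 3 1) 3 := by
  set c : ℂ := - Complex.exp (u ![s, 0, ξ, 0]) with hc
  -- the two curves
  have hγ : HasDerivAt (fun z : ℂ => (![s, 0, ξ, 1 * z] : Fin 4 → ℂ)) ((1 : ℂ) • Pi.single 3 1) 0 :=
    hasDerivAt_fiber s ξ 1
  have hy : HasDerivAt (fun z : ℂ => (![lam * s, 0, ξ, c * z] : Fin 4 → ℂ)) (c • Pi.single 3 1) 0 :=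
    hasDerivAt_fiber (lam * s) ξ c
  have hfγ : ∀ z : ℂ, f ![s, 0, ξ, 1 * z] = ![lam * s, 0, ξ, c * z] := by
    intro z
    rw [f_mk, hc]; simp
  have hL : HasDerivAt (fun z : ℂ => k ![s, 0, ξ, 1 * z] 3)
      (fderiv ℂ k ![s, 0, ξ, 0] (Pi.single 3 1) 3) 0 := by
    have h6 : HasFDerivAt k (fderiv ℂ k ![s, 0, ξ, 0]) ![s, 0, ξ, 1 * 0] := by
      rw [mul_zero]; exact h1.hasFDerivAt
    have h7 := h6.comp_hasDerivAt (0 : ℂ) hγ
    have h8 := (hasDerivAt_pi.mp h7) 3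
    simpa using h8
  have hB : HasDerivAt (fun z : ℂ => k ![lam * s, 0, ξ, c * z] 3)
      (c * fderiv ℂ k ![lam * s, 0, ξ, 0] (Pi.single 3 1) 3) 0 := by
    have h6 : HasFDerivAt k (fderiv ℂ k ![lam * s, 0, ξ, 0]) ![lam * s, 0, ξ, c * 0] := by
      rw [mul_zero]; exact h2.hasFDerivAt
    have h7 := h6.comp_hasDerivAt (0 : ℂ) hy
    have h8 := (hasDerivAt_pi.mp h7) 3
    simpa using h8
  have hA : DifferentiableAt ℂ (fun z : ℂ => - Complex.exp (u (k ![lam * s, 0, ξ, c * z]))) 0 := by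
    have h6 : DifferentiableAt ℂ (fun z : ℂ => k ![lam * s, 0, ξ, c * z]) 0 := by
      apply DifferentiableAt.comp (g := k) (0 : ℂ) _ hy.differentiableAt
      rw [mul_zero]; exact h2
    have h7 : DifferentiableAt ℂ (fun z : ℂ => u (k ![lam * s, 0, ξ, c * z])) 0 := by
      apply DifferentiableAt.comp (g := u) (0 : ℂ) _ h6
      rw [mul_zero]; exact h3
    exact h7.cexp.neg
  have hR := hA.hasDerivAt.mul hB
  have heq : (fun z : ℂ => k ![s, 0, ξ, 1 * z] 3) =ᶠ[𝓝 0]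
      (fun z : ℂ => (- Complex.exp (u (k ![lam * s, 0, ξ, c * z]))) * k ![lam * s, 0, ξ, c * z] 3) := by
    have ht : Tendsto (fun z : ℂ => (![s, 0, ξ, 1 * z] : Fin 4 → ℂ)) (𝓝 0) (𝓝 ![s, 0, ξ, 0]) := by
      have := hγ.continuousAt.tendsto
      simpa using this
    filter_upwards [ht.eventually h5] with z hz
    have := congrFun hz 3
    rw [hfγ] at this
    rw [← this]
    simp [f]
  have h6 := (hR.congr_of_eventuallyEq heq).unique hL
  rw [← h6]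
  simp only [mul_zero]
  rw [h4, hc, Complex.exp_add]
  ring

theorem norm_eq_one_of_tendsto {z : ℂ} (h : Tendsto (fun k => z ^ (m k)) atTop (𝓝 (-1))) :
    ‖z‖ = 1 := by
  have h1 : Tendsto (fun k => ‖z‖ ^ (m k)) atTop (𝓝 1) := by
    have := h.norm
    simpa using this
  rcases lt_trichotomy ‖z‖ 1 with h2 | h2 | h2
  · exfalso
    have h3 := (tendsto_pow_atTop_nhds_zero_of_lt_one (norm_nonneg z) h2).comp m_tendsto
    have := tendsto_nhds_unique h1 h3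
    norm_num at this
  · exact h2
  · exfalso
    have h3 := (tendsto_pow_atTop_atTop_of_one_lt h2).comp m_tendsto
    exact not_tendsto_nhds_of_tendsto_atTop h3 1 h1

theorem no_finite_order (k g : (Fin 4 → ℂ) → (Fin 4 → ℂ)) (hk : AnalyticAt ℂ k 0) (hk0 : k 0 = 0)
    (hg : AnalyticAt ℂ g 0) (hgk : g ∘ k =ᶠ[𝓝 0] id) (hfk : f ∘ k ∘ f =ᶠ[𝓝 0] k)
    (N : ℕ) (hN : 0 < N) (hkN : k^[N] =ᶠ[𝓝 0] id) : False := by
  have hl := lam_ne_zero
  -- the good set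
  have hgood1 : ∀ᶠ p in 𝓝 (0 : Fin 4 → ℂ), AnalyticAt ℂ k p := hk.eventually_analyticAt
  have hgood2 : ∀ᶠ p in 𝓝 (0 : Fin 4 → ℂ), ∀ᶠ q in 𝓝 p, f (k (f q)) = k q := by
    rw [eventually_eventually_nhds]
    exact hfk
  have hax0 : Tendsto (fun ξ : ℂ => (![0, 0, ξ, 0] : Fin 4 → ℂ)) (𝓝 0) (𝓝 0) := by
    have := (analytic_axis 0).continuousAt.tendsto
    rwa [vec_zero] at this
  -- slices
  have hslice : ∀ᶠ ξ in 𝓝 (0 : ℂ), ∃ b : ℂ, ∀ᶠ s in 𝓝 (0 : ℂ),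
      k ![s, 0, ξ, 0] = ![0, b * s, k ![0, 0, ξ, 0] 2, 0] := by
    filter_upwards [hax0.eventually hgood1, hax0.eventually hgood2] with ξ h1 h2
    have hG : AnalyticAt ℂ (fun s : ℂ => k ![s, 0, ξ, 0]) 0 :=
      AnalyticAt.comp_of_eq (g := k) h1 (analytic_line 0 ξ 0) rfl
    apply slice hG
    filter_upwards [(analytic_line 0 ξ 0).continuousAt.tendsto.eventually h2] with s hs
    rw [f_line] at hs
    exact hs
  -- derivative in the fibre direction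
  have hfd : AnalyticAt ℂ (fderiv ℂ k) 0 := hk.fderiv
  have hβ00 : fderiv ℂ k 0 (Pi.single 3 1) 3 ≠ 0 := by
    intro h0
    -- the curve z ↦ (0,0,0,z)
    have hγ : HasDerivAt (fun z : ℂ => (![0, 0, 0, 1 * z] : Fin 4 → ℂ)) ((1 : ℂ) • Pi.single 3 1) 0 :=
      hasDerivAt_fiber 0 0 1
    have hγm : HasDerivAt (fun z : ℂ => (![0, 0, 0, (-1) * z] : Fin 4 → ℂ))
        ((-1 : ℂ) • Pi.single 3 1) 0 := hasDerivAt_fiber 0 0 (-1)
    have hk' : HasFDerivAt k (fderiv ℂ k 0) 0 := hk.differentiableAt.hasFDerivAt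
    have hkγ : HasDerivAt (fun z : ℂ => k ![0, 0, 0, 1 * z])
        (fderiv ℂ k 0 ((1 : ℂ) • Pi.single 3 1)) 0 := by
      apply HasFDerivAt.comp_hasDerivAt (l := k) (0 : ℂ) _ hγ
      rw [mul_zero, vec_zero]; exact hk'
    have hkγm : HasDerivAt (fun z : ℂ => k ![0, 0, 0, (-1) * z])
        (fderiv ℂ k 0 ((-1 : ℂ) • Pi.single 3 1)) 0 := by
      apply HasFDerivAt.comp_hasDerivAt (l := k) (0 : ℂ) _ hγm
      rw [mul_zero, vec_zero]; exact hk'
    have ht : Tendsto (fun z : ℂ => (![0, 0, 0, 1 * z] : Fin 4 → ℂ)) (𝓝 0) (𝓝 0) := by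
      have := hγ.continuousAt.tendsto
      simpa [vec_zero] using this
    have hrel : ∀ᶠ z in 𝓝 (0 : ℂ), f (k ![0, 0, 0, (-1) * z]) = k ![0, 0, 0, 1 * z] := by
      filter_upwards [ht.eventually hfk] with z hz
      simp only [Function.comp_apply] at hz
      rw [f_mk] at hz
      simp only [u_mk] at hz
      simp [U1_zero, U2_zero] at hz
      simpa using hz
    -- components
    have hv : ∀ i : Fin 4, HasDerivAt (fun z : ℂ => k ![0, 0, 0, 1 * z] i)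
        (fderiv ℂ k 0 (Pi.single 3 1) i) 0 := by
      intro i
      have := (hasDerivAt_pi.mp hkγ) i
      simpa using this
    have hvm : ∀ i : Fin 4, HasDerivAt (fun z : ℂ => k ![0, 0, 0, (-1) * z] i)
        (-(fderiv ℂ k 0 (Pi.single 3 1) i)) 0 := by
      intro i
      have := (hasDerivAt_pi.mp hkγm) i
      simpa using this
    have hcomp : ∀ (i : Fin 4) (c : ℂ), (∀ᶠ z in 𝓝 (0 : ℂ), c * k ![0, 0, 0, (-1) * z] i =
        k ![0, 0, 0, 1 * z] i) → c ≠ -1 → fderiv ℂ k 0 (Pi.single 3 1) i = 0 := by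
      intro i c hc hc1
      have h1 := ((hvm i).const_mul c).congr_of_eventuallyEq (f₁ := fun z : ℂ => k ![0, 0, 0, 1 * z] i)
        (by filter_upwards [hc] with z hz; exact hz.symm)
      have h2 := h1.unique (hv i)
      have h3 : (1 + c) * fderiv ℂ k 0 (Pi.single 3 1) i = 0 := by linear_combination (-1) * h2
      rcases mul_eq_zero.mp h3 with h4 | h4
      · exfalso; apply hc1; linear_combination h4
      · exact h4
    have c0 : fderiv ℂ k 0 (Pi.single 3 1) 0 = 0 := by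
      apply hcomp 0 lam
      · filter_upwards [hrel] with z hz
        have := congrFun hz 0
        simpa [f] using this
      · have := lam_pow_ne_neg_one 1
        rwa [pow_one] at this
    have c1' : fderiv ℂ k 0 (Pi.single 3 1) 1 = 0 := by
      apply hcomp 1 lam⁻¹
      · filter_upwards [hrel] with z hz
        have := congrFun hz 1
        simpa [f] using this
      · intro h
        have h2 : lam = -1 := by
          rw [← inv_inv lam, h]; norm_num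
        apply lam_pow_ne_neg_one 1
        rw [pow_one]; exact h2
    have c2' : fderiv ℂ k 0 (Pi.single 3 1) 2 = 0 := by
      apply hcomp 2 1
      · filter_upwards [hrel] with z hz
        have := congrFun hz 2
        simpa [f] using this
      · norm_num
    have hz : fderiv ℂ k 0 (Pi.single 3 1) = 0 := by
      funext i
      fin_cases i
      · exact c0
      · exact c1'
      · exact c2'
      · exact h0
    -- but fderiv k 0 is injective
    have hgk' : HasFDerivAt (g ∘ k) ((fderiv ℂ g (k 0)).comp (fderiv ℂ k 0)) 0 := by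
      apply HasFDerivAt.comp
      · rw [hk0]; exact hg.differentiableAt.hasFDerivAt
      · exact hk'
    have hid : HasFDerivAt (g ∘ k) (ContinuousLinearMap.id ℂ (Fin 4 → ℂ)) 0 :=
      (hasFDerivAt_id (0 : Fin 4 → ℂ)).congr_of_eventuallyEq hgk
    have huniq := hgk'.unique hid
    have h9 := congrArg (fun φ => φ (Pi.single 3 1 : Fin 4 → ℂ)) huniq
    simp only [ContinuousLinearMap.comp_apply, hz, map_zero, ContinuousLinearMap.id_apply] at h9
    have h10 := congrFun h9 3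
    simp at h10
  have hβne : ∀ᶠ ξ in 𝓝 (0 : ℂ), fderiv ℂ k ![0, 0, ξ, 0] (Pi.single 3 1) 3 ≠ 0 := by
    have hc : ContinuousAt (fun p => fderiv ℂ k p (Pi.single 3 1) 3) (0 : Fin 4 → ℂ) := by
      have h1 : ContinuousAt (fderiv ℂ k) (0 : Fin 4 → ℂ) := hfd.continuousAt
      have h2 : ContinuousAt (fun p => fderiv ℂ k p (Pi.single 3 1)) (0 : Fin 4 → ℂ) :=
        h1.clm_apply continuousAt_const
      exact (continuousAt_pi.mp h2) 3
    exact hax0.eventually (hc.eventually_ne hβ00)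
  -- the multiplier along the axis
  have hlimit : ∀ᶠ ξ in 𝓝 (0 : ℂ), ξ ≠ 0 →
      Tendsto (fun j => (k ![0, 0, ξ, 0] 2 / ξ) ^ (m j)) atTop (𝓝 (-1)) := by
    filter_upwards [hax0.eventually hgood1, hax0.eventually hgood2, hslice, hβne] with
      ξ h1 h2 h3 h4 hξ
    obtain ⟨b, hb⟩ := h3
    set c : ℂ := k ![0, 0, ξ, 0] 2 with hc
    have hβa : AnalyticAt ℂ (fun s : ℂ => fderiv ℂ k ![s, 0, ξ, 0] (Pi.single 3 1) 3) 0 := by
      have e1 : AnalyticAt ℂ (fun s : ℂ => fderiv ℂ k ![s, 0, ξ, 0]) 0 :=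
        AnalyticAt.comp_of_eq (g := fderiv ℂ k) h1.fderiv (analytic_line 0 ξ 0) rfl
      have e2 : AnalyticAt ℂ (fun s : ℂ => fderiv ℂ k ![s, 0, ξ, 0] (Pi.single 3 1)) 0 :=
        AnalyticAt.comp (g := fun φ : (Fin 4 → ℂ) →L[ℂ] (Fin 4 → ℂ) => φ (Pi.single 3 1))
          ((ContinuousLinearMap.apply ℂ (Fin 4 → ℂ) (Pi.single 3 1 : Fin 4 → ℂ)).analyticAt _) e1
      exact analyticAt_pi_iff.mp e2 3
    have hline : Tendsto (fun s : ℂ => (![s, 0, ξ, 0] : Fin 4 → ℂ)) (𝓝 0) (𝓝 ![0, 0, ξ, 0]) :=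
      (analytic_line 0 ξ 0).continuousAt.tendsto
    have hG0 : k ![0, 0, ξ, 0] = ![0, b * 0, c, 0] := hb.self_of_nhds
    have hua : AnalyticAt ℂ u (k ![0, 0, ξ, 0]) := by
      apply u_analytic
      · rw [hG0]; rfl
      · rw [hG0]; simp
    have hGa : AnalyticAt ℂ (fun s : ℂ => k ![s, 0, ξ, 0]) 0 :=
      AnalyticAt.comp_of_eq (g := k) h1 (analytic_line 0 ξ 0) rfl
    have hu2 : ∀ᶠ s in 𝓝 (0 : ℂ), AnalyticAt ℂ u (k ![s, 0, ξ, 0]) :=
      hGa.continuousAt.tendsto.eventually hua.eventually_analyticAt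
    have hk2 : ∀ᶠ s in 𝓝 (0 : ℂ), AnalyticAt ℂ k ![s, 0, ξ, 0] :=
      hline.eventually h1.eventually_analyticAt
    have hev : ∀ᶠ s in 𝓝 (0 : ℂ), ∀ᶠ q in 𝓝 ![s, 0, ξ, 0], f (k (f q)) = k q :=
      hline.eventually (eventually_eventually_nhds.mpr h2)
    have hrel : ∀ᶠ s in 𝓝 (0 : ℂ), fderiv ℂ k ![s, 0, ξ, 0] (Pi.single 3 1) 3 =
        Complex.exp (U1 (ξ * s) + U2 (ξ * s ^ 2) + U1 (b * c * s) + U2 (b ^ 2 * c * s ^ 2)) *
        fderiv ℂ k ![lam * s, 0, ξ, 0] (Pi.single 3 1) 3 := by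
      filter_upwards [hk2, tendsto_lam_mul.eventually hk2, tendsto_lam_mul.eventually hu2, hev,
        tendsto_lam_mul.eventually hb] with s a1 a2 a3 a4 a5
      rw [beta_rel a1.differentiableAt a2.differentiableAt a3.differentiableAt
        (by rw [a5]; rfl) a4, a5]
      congr 2
      rw [u_mk, u_mk]
      simp only [zero_mul, mul_zero, U1_zero, U2_zero, zero_add, add_zero, ne_eq,
        OfNat.ofNat_ne_zero, not_false_eq_true, zero_pow]
      have e1 : lam⁻¹ * (b * (lam * s) * c) = b * c * s := by field_simp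
      have e2 : lam⁻¹ ^ 2 * ((b * (lam * s)) ^ 2 * c) = b ^ 2 * c * s ^ 2 := by field_simp
      rw [e1, e2, mul_comm s ξ, mul_comm (s ^ 2) ξ]
      ring
    obtain ⟨C, R, hR, hest⟩ := slice_estimate b c ξ _ hβa h4 hrel
    exact slice_limit b c ξ hξ C R hR hest
  -- the map on the axis is linear
  have hca : AnalyticAt ℂ (fun ξ : ℂ => k ![0, 0, ξ, 0] 2) 0 := by
    have e1 : AnalyticAt ℂ (fun ξ : ℂ => k ![0, 0, ξ, 0]) 0 :=
      AnalyticAt.comp_of_eq (g := k) hk (analytic_axis 0) vec_zero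
    exact analyticAt_pi_iff.mp e1 2
  have hc0 : k ![0, 0, 0, 0] 2 = 0 := by rw [vec_zero, hk0]; rfl
  set ζ : ℂ → ℂ := dslope (fun ξ : ℂ => k ![0, 0, ξ, 0] 2) 0 with hζ
  have hζa : AnalyticAt ℂ ζ 0 := by
    obtain ⟨p, hp⟩ := hca
    exact ⟨_, hp.has_fpower_series_dslope_fslope⟩
  have hζeq : ∀ ξ : ℂ, k ![0, 0, ξ, 0] 2 = ξ * ζ ξ := by
    intro ξ
    have := sub_smul_dslope (fun ξ : ℂ => k ![0, 0, ξ, 0] 2) 0 ξ
    simp only [sub_zero, smul_eq_mul, hc0] at this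
    exact this.symm
  have hζlim : ∀ᶠ ξ in 𝓝 (0 : ℂ), ξ ≠ 0 →
      Tendsto (fun j => (ζ ξ) ^ (m j)) atTop (𝓝 (-1)) := by
    filter_upwards [hlimit] with ξ h1 hξ
    have := h1 hξ
    rw [hζeq, mul_div_cancel_left₀ _ hξ] at this
    exact this
  have hζ1 : ∀ᶠ ξ in 𝓝[≠] (0 : ℂ), ‖ζ ξ‖ = 1 := by
    have : ∀ᶠ ξ in 𝓝 (0 : ℂ), ξ ≠ 0 → ‖ζ ξ‖ = 1 := by
      filter_upwards [hζlim] with ξ h1 hξ
      exact norm_eq_one_of_tendsto (h1 hξ)
    exact eventually_nhdsWithin_of_eventually_nhds this |>.and self_mem_nhdsWithin |>.mono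
      fun s hs => hs.1 hs.2
  have hζ0 : ‖ζ 0‖ = 1 := by
    have h1 : Tendsto (fun ξ => ‖ζ ξ‖) (𝓝[≠] (0 : ℂ)) (𝓝 ‖ζ 0‖) :=
      hζa.continuousAt.norm.tendsto.mono_left nhdsWithin_le_nhds
    have h2 : Tendsto (fun ξ => ‖ζ ξ‖) (𝓝[≠] (0 : ℂ)) (𝓝 1) :=
      tendsto_const_nhds.congr' (by filter_upwards [hζ1] with ξ h; exact h.symm)
    exact tendsto_nhds_unique h1 h2
  have hζn : ∀ᶠ ξ in 𝓝 (0 : ℂ), ‖ζ ξ‖ = 1 := by
    rw [eventually_nhdsWithin_iff] at hζ1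
    filter_upwards [hζ1] with ξ h
    by_cases hξ : ξ = 0
    · rw [hξ]; exact hζ0
    · exact h hξ
  have hζconst : ∀ᶠ ξ in 𝓝 (0 : ℂ), ζ ξ = ζ 0 := by
    apply Complex.eventually_eq_of_isLocalMax_norm
    · exact hζa.eventually_analyticAt.mono fun z hz => hz.differentiableAt
    · filter_upwards [hζn] with ξ h
      simp only [Function.comp_apply]
      rw [h, hζ0]
  -- iterate
  have haxis : ∀ᶠ ξ in 𝓝 (0 : ℂ), k ![0, 0, ξ, 0] = ![0, 0, ζ 0 * ξ, 0] := by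
    filter_upwards [hslice, hζconst] with ξ h1 h2
    obtain ⟨b, hb⟩ := h1
    have h3 := hb.self_of_nhds
    rw [h3, hζeq, h2, mul_zero, mul_comm ξ]
  have hiter : ∀ j : ℕ, ∀ᶠ ξ in 𝓝 (0 : ℂ), k^[j] ![0, 0, ξ, 0] = ![0, 0, (ζ 0) ^ j * ξ, 0] := by
    intro j
    induction j with
    | zero => exact Eventually.of_forall fun ξ => by simp
    | succ j ih =>
      have ht : Tendsto (fun ξ : ℂ => (ζ 0) ^ j * ξ) (𝓝 0) (𝓝 0) := by
        have : Continuous fun ξ : ℂ => (ζ 0) ^ j * ξ := by fun_prop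
        simpa using this.tendsto 0
      filter_upwards [ih, ht.eventually haxis] with ξ h1 h2
      rw [Function.iterate_succ_apply', h1, h2]
      congr 1
      ring_nf
  have hNev : ∀ᶠ ξ in 𝓝 (0 : ℂ), (ζ 0) ^ N * ξ = ξ := by
    filter_upwards [hiter N, hax0.eventually hkN] with ξ h1 h2
    rw [h1] at h2
    have := congrFun h2 2
    simpa using this
  have hfreq : ∃ ξ : ℂ, ξ ≠ 0 ∧ (ζ 0) ^ N * ξ = ξ ∧ ζ ξ = ζ 0 ∧
      Tendsto (fun j => (ζ ξ) ^ (m j)) atTop (𝓝 (-1)) := by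
    have h1 := (hNev.and (hζconst.and hζlim))
    have h2 : ∀ᶠ ξ in 𝓝[≠] (0 : ℂ), ((ζ 0) ^ N * ξ = ξ ∧ ζ ξ = ζ 0 ∧ (ξ ≠ 0 →
      Tendsto (fun j => (ζ ξ) ^ (m j)) atTop (𝓝 (-1)))) ∧ ξ ≠ 0 :=
      (eventually_nhdsWithin_of_eventually_nhds h1).and self_mem_nhdsWithin
    obtain ⟨ξ, ⟨a1, a2, a3⟩, a4⟩ := h2.exists
    exact ⟨ξ, a4, a1, a2, a3 a4⟩
  obtain ⟨ξ, hξ, a1, a2, a3⟩ := hfreq
  have hroot : (ζ 0) ^ N = 1 := by
    apply mul_right_cancel₀ hξ
    rw [one_mul]; exact a1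
  rw [a2] at a3
  have h1 : Tendsto (fun _ : ℕ => (1 : ℂ)) atTop (𝓝 (-1)) := by
    apply a3.congr'
    filter_upwards [eventually_ge_atTop N] with j hj
    obtain ⟨c, hc⟩ := dvd_m hN hj
    rw [hc, pow_mul, hroot, one_pow]
  have h2 := tendsto_nhds_unique h1 tendsto_const_nhds
  norm_num at h2

end Pool.Agent.S04440
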