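import Mathlib
import Pool.Agent.H41.EntDefs

set_option autoImplicit false

namespace Pool.Agent.H41.Rot

open Matrix

/-- squared Frobenius norm -/
def Nm (M : Matrix (Fin 2) (Fin 2) ℝ) : ℝ := M 0 0 ^ 2 + M 0 1 ^ 2 + M 1 0 ^ 2 + M 1 1 ^ 2
def Um (M : Matrix (Fin 2) (Fin 2) ℝ) : ℝ := M 0 0 ^ 2 + M 0 1 ^ 2 - M 1 0 ^ 2 - M 1 1 ^ 2
def Vm (M : Matrix (Fin 2) (Fin 2) ℝ) : ℝ := 2 * (M 0 0 * M 1 0 + M 0 1 * M 1 1)

theorem Nm_Dm (M : Matrix (Fin 2) (Fin 2) ℝ) : Nm (Dm * M) = 17 / 8 * Nm M + 15 / 8 * Um M := by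
  simp [Nm, Um, Dm, Matrix.mul_apply, Fin.sum_univ_two]; ring
theorem Um_Dm (M : Matrix (Fin 2) (Fin 2) ℝ) : Um (Dm * M) = 15 / 8 * Nm M + 17 / 8 * Um M := by
  simp [Nm, Um, Dm, Matrix.mul_apply, Fin.sum_univ_two]; ring
theorem Vm_Dm (M : Matrix (Fin 2) (Fin 2) ℝ) : Vm (Dm * M) = Vm M := by
  simp [Vm, Dm, Matrix.mul_apply, Fin.sum_univ_two]; ring

theorem Nm_Rm (θ : ℝ) (M : Matrix (Fin 2) (Fin 2) ℝ) : Nm (Rm θ * M) = Nm M := by
  simp [Nm, Rm, Matrix.mul_apply, Fin.sum_univ_two]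
  have h := Real.sin_sq_add_cos_sq θ
  linear_combination (M 0 0 ^ 2 + M 0 1 ^ 2 + M 1 0 ^ 2 + M 1 1 ^ 2) * h

/-- the complex number `U + i V` -/
noncomputable def Zm (M : Matrix (Fin 2) (Fin 2) ℝ) : ℂ := ⟨Um M, Vm M⟩

theorem Zm_Rm (θ : ℝ) (M : Matrix (Fin 2) (Fin 2) ℝ) :
    Zm (Rm θ * M) = Complex.exp (2 * θ * Complex.I) * Zm M := by
  have h1 : Complex.exp (2 * θ * Complex.I) = ⟨Real.cos (2 * θ), Real.sin (2 * θ)⟩ := by
    apply Complex.ext
    · have := Complex.exp_ofReal_mul_I_re (2 * θ)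
      push_cast at this
      exact this
    · have := Complex.exp_ofReal_mul_I_im (2 * θ)
      push_cast at this
      exact this
  rw [h1]
  have h := Real.sin_sq_add_cos_sq θ
  have hc := Real.cos_two_mul' θ
  have hs := Real.sin_two_mul θ
  apply Complex.ext
  · simp only [Zm, Complex.mul_re]
    rw [hc, hs]
    simp [Um, Vm, Rm, Matrix.mul_apply, Fin.sum_univ_two]
    ring
  · simp only [Zm, Complex.mul_im]
    rw [hc, hs]
    simp [Um, Vm, Rm, Matrix.mul_apply, Fin.sum_univ_two]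
    ring

theorem det_rel (M : Matrix (Fin 2) (Fin 2) ℝ) :
    Nm M ^ 2 = Um M ^ 2 + Vm M ^ 2 + 4 * M.det ^ 2 := by
  rw [Matrix.det_fin_two]
  simp only [Nm, Um, Vm]; ring

theorem Nm_nonneg (M : Matrix (Fin 2) (Fin 2) ℝ) : 0 ≤ Nm M := by
  unfold Nm; positivity

theorem Nm_Dm_le (M : Matrix (Fin 2) (Fin 2) ℝ) : Nm (Dm * M) ≤ 4 * Nm M := by
  rw [Nm_Dm]
  have : Um M ≤ Nm M := by unfold Um Nm; nlinarith [sq_nonneg (M 1 0), sq_nonneg (M 1 1)]
  linarith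

theorem det_Dm : Dm.det = 1 := by simp [Dm, Matrix.det_fin_two]
theorem det_Rm (θ : ℝ) : (Rm θ).det = 1 := by
  simp [Rm, Matrix.det_fin_two]
  have h := Real.sin_sq_add_cos_sq θ
  linarith

theorem det_letter (θ : ℝ) (b : Bool) : (letter θ b).det = 1 := by
  unfold letter; split_ifs
  · exact det_Dm
  · exact det_Rm θ

theorem Nm_letter_le (θ : ℝ) (b : Bool) (M : Matrix (Fin 2) (Fin 2) ℝ) :
    Nm (letter θ b * M) ≤ 4 * Nm M := by
  unfold letter; split_ifs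
  · exact Nm_Dm_le M
  · rw [Nm_Rm]; linarith [Nm_nonneg M]

/-- `M` aligned: `U + iV = -ρ e^{-ib}` with `0 ≤ b ≤ 2θ`. -/
def Aligned (θ : ℝ) (M : Matrix (Fin 2) (Fin 2) ℝ) : Prop :=
  ∃ ρ b : ℝ, 0 ≤ ρ ∧ 0 ≤ b ∧ b ≤ 2 * θ ∧ Zm M = -(ρ * Complex.exp (-(b * Complex.I)))

theorem Zm_Rm_pow (θ : ℝ) (k : ℕ) (M : Matrix (Fin 2) (Fin 2) ℝ) :
    Zm (Rm θ ^ k * M) = Complex.exp (2 * θ * k * Complex.I) * Zm M := by
  induction k with
  | zero => simp
  | succ k ih =>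
    rw [pow_succ', Matrix.mul_assoc, Zm_Rm, ih, ← mul_assoc, ← Complex.exp_add]
    congr 2
    push_cast; ring

theorem Nm_Rm_pow (θ : ℝ) (k : ℕ) (M : Matrix (Fin 2) (Fin 2) ℝ) :
    Nm (Rm θ ^ k * M) = Nm M := by
  induction k with
  | zero => simp
  | succ k ih => rw [pow_succ', Matrix.mul_assoc, Nm_Rm, ih]

/-- if `U + i V = -ρ e^{-ib}` with `b ≥ 0` then `⌊b/(2θ)⌋` rotations align. -/
theorem align_of (θ : ℝ) (hθ : 0 < θ) (M : Matrix (Fin 2) (Fin 2) ℝ) (ρ b : ℝ) (hρ : 0 ≤ ρ)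
    (hb : 0 ≤ b) (hZ : Zm M = -(ρ * Complex.exp (-(b * Complex.I)))) :
    ∃ k : ℕ, (k : ℝ) ≤ b / (2 * θ) ∧ Aligned θ (Rm θ ^ k * M) := by
  set k : ℕ := ⌊b / (2 * θ)⌋₊ with hk
  have h2θ : 0 < 2 * θ := by linarith
  have hk1 : (k : ℝ) ≤ b / (2 * θ) := Nat.floor_le (by positivity)
  have hk2 : b / (2 * θ) < k + 1 := Nat.lt_floor_add_one _
  rw [le_div_iff₀ h2θ] at hk1
  rw [div_lt_iff₀ h2θ] at hk2
  refine ⟨k, by rw [le_div_iff₀ h2θ]; exact hk1, ρ, b - k * (2 * θ), hρ, by linarith, by linarith, ?_⟩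
  rw [Zm_Rm_pow, hZ, mul_neg, ← mul_assoc, mul_comm (Complex.exp _), mul_assoc, ← Complex.exp_add]
  congr 3
  push_cast; ring

theorem exists_align (θ : ℝ) (hθ : 0 < θ) (M : Matrix (Fin 2) (Fin 2) ℝ) :
    ∃ k : ℕ, (k : ℝ) ≤ Real.pi / θ ∧ Aligned θ (Rm θ ^ k * M) := by
  have h1 : Zm M = -((‖Zm M‖ : ℝ) * Complex.exp (-((Real.pi - Complex.arg (Zm M) : ℝ) * Complex.I))) := by
    have h := Complex.norm_mul_exp_arg_mul_I (Zm M)
    have h2 : Complex.exp (-((Real.pi - Complex.arg (Zm M) : ℝ) * Complex.I)) =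
        - Complex.exp (Complex.arg (Zm M) * Complex.I) := by
      have : -((Real.pi - Complex.arg (Zm M) : ℝ) * Complex.I) =
          Complex.arg (Zm M) * Complex.I + -(Real.pi * Complex.I) := by
        push_cast; ring
      rw [this, Complex.exp_add, Complex.exp_neg, Complex.exp_pi_mul_I]
      norm_num
    rw [h2, mul_neg, neg_neg]
    exact h.symm
  have harg1 := Complex.neg_pi_lt_arg (Zm M)
  have harg2 := Complex.arg_le_pi (Zm M)
  obtain ⟨k, hk, hal⟩ := align_of θ hθ M ‖Zm M‖ (Real.pi - Complex.arg (Zm M)) (norm_nonneg _)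
    (by linarith) h1
  refine ⟨k, hk.trans ?_, hal⟩
  rw [div_le_div_iff₀ (by linarith) hθ]
  nlinarith

/-- Lemma B -/
theorem contract (θ : ℝ) (hθ : 0 < θ) (hθ1 : θ ≤ 1 / 100) (M : Matrix (Fin 2) (Fin 2) ℝ)
    (hdet : M.det = 1) (hN : 20 ≤ Nm M) (hal : Aligned θ M) :
    Nm (Dm * M) ≤ Nm M / 2 ∧ ∃ k : ℕ, k ≤ 4 ∧ Aligned θ (Rm θ ^ k * (Dm * M)) := by
  obtain ⟨ρ, b, hρ, hb0, hb1, hZ⟩ := hal
  have hU : Um M = -(ρ * Real.cos b) := by
    have := congrArg Complex.re hZ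
    simp only [Zm] at this
    rw [this]
    have h2 : Complex.exp (-(b * Complex.I)) = Complex.exp (((-b : ℝ) : ℂ) * Complex.I) := by
      push_cast; ring_nf
    rw [h2, Complex.neg_re, Complex.re_ofReal_mul, Complex.exp_ofReal_mul_I_re, Real.cos_neg]
  have hV : Vm M = ρ * Real.sin b := by
    have := congrArg Complex.im hZ
    simp only [Zm] at this
    rw [this]
    have h2 : Complex.exp (-(b * Complex.I)) = Complex.exp (((-b : ℝ) : ℂ) * Complex.I) := by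
      push_cast; ring_nf
    rw [h2, Complex.neg_im, Complex.im_ofReal_mul, Complex.exp_ofReal_mul_I_im, Real.sin_neg]
    ring
  have hrel := det_rel M
  rw [hdet, hU, hV] at hrel
  have hρ2 : ρ ^ 2 = Nm M ^ 2 - 4 := by
    have := Real.sin_sq_add_cos_sq b
    nlinarith
  set N := Nm M with hNdef
  have hρN : ρ ≤ N := by nlinarith
  have hρlow : N - 4 / N ≤ ρ := by
    have hN0 : 0 < N := by linarith
    by_contra hlt
    push Not at hlt
    have h1 : 0 ≤ N - 4 / N := by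
      have : 4 / N ≤ 1 := by rw [div_le_one hN0]; linarith
      linarith
    have h2 : ρ ^ 2 < (N - 4 / N) ^ 2 := by nlinarith
    have h3 : (N - 4 / N) ^ 2 = N ^ 2 - 8 + 16 / N ^ 2 := by field_simp; ring
    have h4 : 16 / N ^ 2 ≤ 4 := by
      rw [div_le_iff₀ (by positivity)]; nlinarith
    linarith
  have hcos : 1 - b ^ 2 / 2 ≤ Real.cos b := Real.one_sub_sq_div_two_le_cos
  have hcos1 : Real.cos b ≤ 1 := Real.cos_le_one b
  have hb2 : b ≤ 1 / 50 := by linarith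
  have hbsq : b ^ 2 ≤ 1 / 2500 := by nlinarith
  have hcos2 : 1 - 1 / 5000 ≤ Real.cos b := by linarith
  have hN0 : 0 < N := by linarith
  have h4N : 4 / N ≤ N / 100 := by
    rw [div_le_div_iff₀ hN0 (by norm_num)]; nlinarith
  have hρ3 : (99 / 100) * N ≤ ρ := by linarith
  have hprod : (99 / 100) * N * (1 - 1 / 5000) ≤ ρ * Real.cos b := by
    have : 0 ≤ Real.cos b := by linarith
    nlinarith
  have hsin0 : 0 ≤ Real.sin b := Real.sin_nonneg_of_nonneg_of_le_pi hb0 (by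
    have := Real.pi_gt_three; linarith)
  have hsin1 : Real.sin b ≤ b := Real.sin_le hb0
  constructor
  · rw [Nm_Dm, hU]
    nlinarith
  · have hU' : Um (Dm * M) ≤ -(22 / 100) * N := by
      rw [Um_Dm, hU]
      nlinarith
    have hV0 : 0 ≤ Vm (Dm * M) := by rw [Vm_Dm, hV]; positivity
    have hV1 : Vm (Dm * M) ≤ 2 * θ * N := by
      rw [Vm_Dm, hV]
      calc ρ * Real.sin b ≤ N * b := by
            apply mul_le_mul hρN hsin1 hsin0 hN0.le
        _ ≤ 2 * θ * N := by nlinarith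
    -- polar form
    set x : ℝ := - Um (Dm * M) with hx
    set y : ℝ := Vm (Dm * M) with hy
    have hx0 : 0 < x := by rw [hx]; nlinarith
    set b' : ℝ := Real.arctan (y / x) with hb'
    have hb'0 : 0 ≤ b' := Real.arctan_nonneg.mpr (by positivity)
    have hb'1 : b' ≤ y / x := by
      have := Real.le_tan hb'0 (Real.arctan_lt_pi_div_two _)
      rwa [hb', Real.tan_arctan] at this
    have hb'2 : b' ≤ 10 * θ - θ / 2 := by
      refine hb'1.trans ?_
      rw [div_le_iff₀ hx0]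
      have : (22 / 100) * N ≤ x := by rw [hx]; linarith
      nlinarith
    have hpol : Zm (Dm * M) = -((Real.sqrt (x ^ 2 + y ^ 2) : ℝ) *
        Complex.exp (-(b' * Complex.I))) := by
      have h2 : Complex.exp (-(b' * Complex.I)) = Complex.exp (((-b' : ℝ) : ℂ) * Complex.I) := by
        push_cast; ring_nf
      have hsq : Real.sqrt (1 + (y / x) ^ 2) = Real.sqrt (x ^ 2 + y ^ 2) / x := by
        have : 1 + (y / x) ^ 2 = (x ^ 2 + y ^ 2) / x ^ 2 := by field_simp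
        rw [this, Real.sqrt_div (by positivity), Real.sqrt_sq hx0.le]
      have hs0 : 0 < Real.sqrt (x ^ 2 + y ^ 2) := Real.sqrt_pos.mpr (by positivity)
      rw [h2]
      apply Complex.ext
      · rw [Complex.neg_re, Complex.re_ofReal_mul, Complex.exp_ofReal_mul_I_re, Real.cos_neg, hb',
          Real.cos_arctan, hsq]
        simp only [Zm]
        field_simp
        rw [hx]; ring
      · rw [Complex.neg_im, Complex.im_ofReal_mul, Complex.exp_ofReal_mul_I_im, Real.sin_neg, hb',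
          Real.sin_arctan, hsq]
        simp only [Zm]
        field_simp
        rw [hy]
    obtain ⟨k, hk, hal'⟩ := align_of θ hθ (Dm * M) _ b' (Real.sqrt_nonneg _) hb'0 hpol
    refine ⟨k, ?_, hal'⟩
    have h5 : (k : ℝ) < 5 := by
      refine lt_of_le_of_lt hk ?_
      rw [div_lt_iff₀ (by linarith)]
      linarith
    have : k < 5 := by exact_mod_cast h5
    omega

end Pool.Agent.H41.Rot
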