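import Mathlib
import Pool.Agent.H41.RotA

set_option autoImplicit false

namespace Pool.Agent.H41.Rot

open Matrix

/-- Apply the letters `c 0, c 1, ..., c (n-1)` to `M`. -/
noncomputable def run (θ : ℝ) (M : Matrix (Fin 2) (Fin 2) ℝ) (c : ℕ → Bool) :
    ℕ → Matrix (Fin 2) (Fin 2) ℝ
  | 0 => M
  | (n + 1) => letter θ (c n) * run θ M c n

theorem run_add (θ : ℝ) (M : Matrix (Fin 2) (Fin 2) ℝ) (c : ℕ → Bool) (a b : ℕ) :
    run θ M c (a + b) = run θ (run θ M c a) (fun i => c (a + i)) b := by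
  induction b with
  | zero => rfl
  | succ b ih => rw [← Nat.add_assoc, run, run, ih]

theorem run_congr (θ : ℝ) (M : Matrix (Fin 2) (Fin 2) ℝ) (c c' : ℕ → Bool) (n : ℕ)
    (h : ∀ i < n, c i = c' i) : run θ M c n = run θ M c' n := by
  induction n with
  | zero => rfl
  | succ n ih => rw [run, run, ih (fun i hi => h i (by omega)), h n (by omega)]

theorem run_det (θ : ℝ) (M : Matrix (Fin 2) (Fin 2) ℝ) (c : ℕ → Bool) (n : ℕ)
    (h : M.det = 1) : (run θ M c n).det = 1 := by
  induction n with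
  | zero => exact h
  | succ n ih => rw [run, Matrix.det_mul, ih, det_letter, one_mul]

theorem Nm_run (θ : ℝ) (M : Matrix (Fin 2) (Fin 2) ℝ) (c : ℕ → Bool) (n : ℕ) :
    Nm (run θ M c n) ≤ 4 ^ n * Nm M := by
  induction n with
  | zero => simp [run]
  | succ n ih =>
    rw [run]
    refine (Nm_letter_le _ _ _).trans ?_
    rw [pow_succ]; linarith

theorem run_false (θ : ℝ) (M : Matrix (Fin 2) (Fin 2) ℝ) (n : ℕ) :
    run θ M (fun _ => false) n = Rm θ ^ n * M := by
  induction n with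
  | zero => simp [run]
  | succ n ih => rw [run, ih, pow_succ', Matrix.mul_assoc]; rfl

/-- concatenation of control words -/
def cat (a : ℕ) (c c' : ℕ → Bool) (i : ℕ) : Bool := if i < a then c i else c' (i - a)

theorem run_cat (θ : ℝ) (M : Matrix (Fin 2) (Fin 2) ℝ) (c c' : ℕ → Bool) (a b : ℕ) :
    run θ M (cat a c c') (a + b) = run θ (run θ M c a) c' b := by
  rw [run_add]
  have h1 : run θ M (cat a c c') a = run θ M c a :=
    run_congr _ _ _ _ _ fun i hi => by simp [cat, hi]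
  have h2 : (fun i => cat a c c' (a + i)) = c' := by
    funext i; simp [cat]
  rw [h1, h2]

/-- From an aligned matrix with norm at most `20 * 2^m`, control in exactly `5m` letters. -/
theorem control_aligned (θ : ℝ) (hθ : 0 < θ) (hθ1 : θ ≤ 1 / 100) (m : ℕ) :
    ∀ M : Matrix (Fin 2) (Fin 2) ℝ, M.det = 1 → Aligned θ M → Nm M ≤ 20 * 2 ^ m →
      ∃ c : ℕ → Bool, Nm (run θ M c (5 * m)) ≤ 20 := by
  induction m with
  | zero => intro M _ _ h; exact ⟨fun _ => false, by simpa [run] using h⟩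
  | succ m ih =>
    intro M hdet hal hN
    rcases le_total (Nm M) 20 with h | h
    · refine ⟨fun _ => false, ?_⟩
      rw [run_false, Nm_Rm_pow]; exact h
    · obtain ⟨h1, k, hk, hal'⟩ := contract θ hθ hθ1 M hdet h hal
      have hdet' : (Rm θ ^ k * (Dm * M)).det = 1 := by
        rw [Matrix.det_mul, Matrix.det_mul, Matrix.det_pow, det_Dm, det_Rm, hdet]; simp
      have hN' : Nm (Rm θ ^ k * (Dm * M)) ≤ 20 * 2 ^ m := by
        rw [Nm_Rm_pow]
        rw [pow_succ] at hN
        linarith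
      obtain ⟨c, hc⟩ := ih _ hdet' hal' hN'
      -- word: D, then k rotations, then c, then padding by rotations
      refine ⟨cat 1 (fun _ => true) (cat k (fun _ => false) (cat (5 * m) c (fun _ => false))), ?_⟩
      rw [show 5 * (m + 1) = 1 + (k + (5 * m + (4 - k))) by omega, run_cat, run_cat, run_cat]
      have e1 : run θ M (fun _ => true) 1 = Dm * M := by simp [run, letter]
      rw [e1, run_false, run_false, Nm_Rm_pow]
      exact hc

/-- Lemma C: control after a free word. -/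
theorem control (θ : ℝ) (hθ : 0 < θ) (hθ1 : θ ≤ 1 / 100) (n C : ℕ) (hC : Real.pi / θ ≤ C)
    (M : Matrix (Fin 2) (Fin 2) ℝ) (hdet : M.det = 1) (hN : Nm M ≤ 20) (w : ℕ → Bool) :
    ∃ c : ℕ → Bool, (∀ i < n, c i = w i) ∧ Nm (run θ M c (11 * n + C)) ≤ 20 := by
  have h1 : Nm (run θ M w n) ≤ 20 * 2 ^ (2 * n) := by
    refine (Nm_run _ _ _ _).trans ?_
    rw [pow_mul]; norm_num
    nlinarith [pow_pos (show (0:ℝ) < 4 by norm_num) n]
  obtain ⟨k, hk, hal⟩ := exists_align θ hθ (run θ M w n)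
  have hkC : k ≤ C := by
    have : (k : ℝ) ≤ C := hk.trans hC
    exact_mod_cast this
  have hdet' : (Rm θ ^ k * run θ M w n).det = 1 := by
    rw [Matrix.det_mul, Matrix.det_pow, det_Rm, run_det _ _ _ _ hdet]; simp
  obtain ⟨c, hc⟩ := control_aligned θ hθ hθ1 (2 * n) (Rm θ ^ k * run θ M w n) hdet' hal (by
    rw [Nm_Rm_pow]; exact h1)
  refine ⟨cat n w (cat k (fun _ => false) (cat (5 * (2 * n)) c (fun _ => false))), ?_, ?_⟩
  · intro i hi; simp [cat, hi]
  · rw [show 11 * n + C = n + (k + (5 * (2 * n) + (C - k))) by omega, run_cat, run_cat, run_cat,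
      run_false, run_false, Nm_Rm_pow]
    exact hc

/-- the control function -/
noncomputable def Φ (θ : ℝ) (n C : ℕ) (M : Matrix (Fin 2) (Fin 2) ℝ) (w : ℕ → Bool) : ℕ → Bool :=
  open Classical in
  if h : ∃ c : ℕ → Bool, (∀ i < n, c i = w i) ∧ Nm (run θ M c (11 * n + C)) ≤ 20 then h.choose
  else fun _ => false

/-- the states at block boundaries -/
noncomputable def state (θ : ℝ) (n C : ℕ) (ω : ℕ → Bool) : ℕ → Matrix (Fin 2) (Fin 2) ℝ
  | 0 => 1
  | (k + 1) => run θ (state θ n C ω k) (Φ θ n C (state θ n C ω k) (fun j => ω (k * n + j)))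
      (11 * n + C)

/-- the one-sided coded sequence -/
noncomputable def seq (θ : ℝ) (n C : ℕ) (ω : ℕ → Bool) (t : ℕ) : Bool :=
  Φ θ n C (state θ n C ω (t / (11 * n + C))) (fun j => ω ((t / (11 * n + C)) * n + j))
    (t % (11 * n + C))

theorem state_good (θ : ℝ) (hθ : 0 < θ) (hθ1 : θ ≤ 1 / 100) (n C : ℕ) (hC : Real.pi / θ ≤ C)
    (ω : ℕ → Bool) (k : ℕ) : (state θ n C ω k).det = 1 ∧ Nm (state θ n C ω k) ≤ 20 := by
  induction k with
  | zero =>
    constructor
    · simp [state]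
    · simp [state, Nm]; norm_num
  | succ k ih =>
    constructor
    · exact run_det _ _ _ _ ih.1
    · have h := control θ hθ hθ1 n C hC _ ih.1 ih.2 (fun j => ω (k * n + j))
      have h2 : Φ θ n C (state θ n C ω k) (fun j => ω (k * n + j)) = h.choose := by
        unfold Φ; rw [dif_pos h]
      rw [state, h2]
      exact h.choose_spec.2

theorem Φ_free (θ : ℝ) (hθ : 0 < θ) (hθ1 : θ ≤ 1 / 100) (n C : ℕ) (hC : Real.pi / θ ≤ C)
    (ω : ℕ → Bool) (k j : ℕ) (hj : j < n) :
    Φ θ n C (state θ n C ω k) (fun j => ω (k * n + j)) j = ω (k * n + j) := by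
  have hg := state_good θ hθ hθ1 n C hC ω k
  have h := control θ hθ hθ1 n C hC _ hg.1 hg.2 (fun j => ω (k * n + j))
  have h2 : Φ θ n C (state θ n C ω k) (fun j => ω (k * n + j)) = h.choose := by
    unfold Φ; rw [dif_pos h]
  rw [h2]
  exact h.choose_spec.1 j hj

theorem run_seq_block (θ : ℝ) (n C : ℕ) (hL : 0 < 11 * n + C) (ω : ℕ → Bool) (k : ℕ) :
    run θ 1 (seq θ n C ω) (k * (11 * n + C)) = state θ n C ω k := by
  induction k with
  | zero => simp [run, state]
  | succ k ih =>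
    rw [Nat.succ_mul, run_add, ih, state]
    apply run_congr
    intro i hi
    simp only [seq]
    rw [show k * (11 * n + C) + i = i + (11 * n + C) * k by ring, Nat.add_mul_div_left _ _ hL,
      Nat.add_mul_mod_self_left, Nat.div_eq_of_lt hi, Nat.mod_eq_of_lt hi, Nat.zero_add]

theorem Nm_run_seq (θ : ℝ) (hθ : 0 < θ) (hθ1 : θ ≤ 1 / 100) (n C : ℕ) (hC : Real.pi / θ ≤ C)
    (ω : ℕ → Bool) (t : ℕ) :
    Nm (run θ 1 (seq θ n C ω) t) ≤ 20 * 4 ^ (11 * n + C) := by
  have hC0 : 0 < C := by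
    have h1 : 0 < Real.pi / θ := div_pos Real.pi_pos hθ
    have : (0 : ℝ) < C := lt_of_lt_of_le h1 hC
    exact_mod_cast this
  have hL : 0 < 11 * n + C := by omega
  have ht : t = (t / (11 * n + C)) * (11 * n + C) + t % (11 * n + C) := by
    rw [mul_comm]; exact (Nat.div_add_mod _ _).symm
  rw [ht, run_add, run_seq_block θ n C hL]
  refine (Nm_run _ _ _ _).trans ?_
  have h1 := (state_good θ hθ hθ1 n C hC ω (t / (11 * n + C))).2
  have h2 : t % (11 * n + C) ≤ 11 * n + C := (Nat.mod_lt _ hL).le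
  have h3 : (4 : ℝ) ^ (t % (11 * n + C)) ≤ 4 ^ (11 * n + C) :=
    pow_le_pow_right₀ (by norm_num) h2
  have h4 := Nm_nonneg (state θ n C ω (t / (11 * n + C)))
  have h5 : (0 : ℝ) < 4 ^ (t % (11 * n + C)) := by positivity
  nlinarith

/-- agreement of codes implies agreement of the free bits -/
theorem free_agree (θ : ℝ) (hθ : 0 < θ) (hθ1 : θ ≤ 1 / 100) (n C : ℕ) (hn : 0 < n)
    (hC : Real.pi / θ ≤ C) (ω ω' : ℕ → Bool) (K : ℕ)
    (h : ∀ t < K * (11 * n + C), seq θ n C ω t = seq θ n C ω' t) :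
    ∀ q < K * n, ω q = ω' q := by
  intro q hq
  have hL : 0 < 11 * n + C := by omega
  set k := q / n with hk
  set j := q % n with hj
  have hjn : j < n := Nat.mod_lt _ hn
  have hq' : q = k * n + j := by rw [mul_comm]; exact (Nat.div_add_mod _ _).symm
  have hkK : k < K := by
    rw [hk, Nat.div_lt_iff_lt_mul hn]; exact hq
  have hj' : j < 11 * n + C := by omega
  have key : ∀ ω : ℕ → Bool, seq θ n C ω (k * (11 * n + C) + j) = ω q := by
    intro ω
    simp only [seq]
    rw [show k * (11 * n + C) + j = j + (11 * n + C) * k by ring, Nat.add_mul_div_left _ _ hL,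
      Nat.add_mul_mod_self_left, Nat.div_eq_of_lt hj', Nat.mod_eq_of_lt hj', Nat.zero_add,
      Φ_free θ hθ hθ1 n C hC ω k j hjn, ← hq']
  have := h (k * (11 * n + C) + j) (by nlinarith)
  rw [key, key] at this
  exact this

end Pool.Agent.H41.Rot
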