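import Mathlib
import Pool.Agent.H41.RotB

set_option autoImplicit false

open scoped ENNReal NNReal
open MeasureTheory

namespace Pool.Agent.H41.Rot

open Matrix

theorem entry_le (M : Matrix (Fin 2) (Fin 2) ℝ) (K : ℝ) (h : Nm M ≤ K) (i j : Fin 2) :
    |M i j| ≤ 1 + K := by
  have h1 : |M i j| ≤ 1 + M i j ^ 2 := by
    rw [abs_le]; constructor <;> nlinarith [sq_nonneg (M i j - 1), sq_nonneg (M i j + 1)]
  have h2 : M i j ^ 2 ≤ Nm M := by
    unfold Nm
    have a := sq_nonneg (M 0 0)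
    have b := sq_nonneg (M 0 1)
    have c := sq_nonneg (M 1 0)
    have d := sq_nonneg (M 1 1)
    fin_cases i <;> fin_cases j <;> simp <;> linarith
  linarith

theorem entry_inv_le (M : Matrix (Fin 2) (Fin 2) ℝ) (K : ℝ) (hdet : M.det = 1) (h : Nm M ≤ K)
    (i j : Fin 2) : |M⁻¹ i j| ≤ 1 + K := by
  have hinv : M⁻¹ = !![M 1 1, -M 0 1; -M 1 0, M 0 0] := by
    rw [Matrix.inv_def, hdet, Matrix.adjugate_fin_two]; simp
  have h00 := entry_le M K h 0 0
  have h01 := entry_le M K h 0 1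
  have h10 := entry_le M K h 1 0
  have h11 := entry_le M K h 1 1
  rw [hinv]
  fin_cases i <;> fin_cases j <;> simp <;> assumption

theorem shift_iter (n : ℕ) (x : ℤ → Bool) (i : ℤ) : (shift^[n] x) i = x (i + n) := by
  induction n generalizing x i with
  | zero => simp
  | succ n ih =>
    rw [Function.iterate_succ_apply, ih]
    simp only [shift, shiftBy]
    push_cast
    ring_nf

theorem fiberProd_eq (θ : ℝ) (x : ℤ → Bool) (n : ℕ) :
    fiberProd θ x n = run θ 1 (fun i => x i) n := by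
  induction n with
  | zero => rfl
  | succ n ih =>
    rw [fiberProd, run, ih, A, shift_iter]
    simp

/-- the coded two-sided sequence -/
noncomputable def code (θ : ℝ) (n C : ℕ) (ω : ℕ → Bool) : ℤ → Bool :=
  fun i => if 0 ≤ i then seq θ n C ω i.toNat else false

theorem code_nat (θ : ℝ) (n C : ℕ) (ω : ℕ → Bool) (i : ℕ) :
    code θ n C ω i = seq θ n C ω i := by
  simp [code]

theorem code_mem (θ : ℝ) (hθ : 0 < θ) (hθ1 : θ ≤ 1 / 100) (n C : ℕ) (hC : Real.pi / θ ≤ C)
    (ω : ℕ → Bool) : code θ n C ω ∈ boundedOrbits θ := by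
  refine ⟨1 + 20 * 4 ^ (11 * n + C), ?_⟩
  intro m i j
  match m with
  | Int.ofNat m =>
    have h1 : cocycle θ (code θ n C ω) (Int.ofNat m) = run θ 1 (seq θ n C ω) m := by
      show fiberProd θ (code θ n C ω) m = _
      rw [fiberProd_eq]
      exact run_congr _ _ _ _ _ fun i _ => code_nat θ n C ω i
    rw [h1]
    have h2 := Nm_run_seq θ hθ hθ1 n C hC ω m
    have h3 : (run θ 1 (seq θ n C ω) m).det = 1 := run_det _ _ _ _ (by simp)
    exact ⟨entry_le _ _ h2 i j, entry_inv_le _ _ h3 h2 i j⟩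
  | Int.negSucc m =>
    have h1 : fiberProd θ (shiftBy (-(m + 1 : ℤ)) (code θ n C ω)) (m + 1) =
        Rm θ ^ (m + 1) * 1 := by
      rw [fiberProd_eq, ← run_false]
      apply run_congr
      intro i hi
      simp only [shiftBy, code]
      rw [if_neg]
      omega
    have h2 : cocycle θ (code θ n C ω) (Int.negSucc m) = (Rm θ ^ (m + 1) * 1)⁻¹ := by
      show (fiberProd θ (shiftBy (-(m + 1 : ℤ)) (code θ n C ω)) (m + 1))⁻¹ = _
      rw [h1]
    have hdet : (Rm θ ^ (m + 1) * 1).det = 1 := by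
      rw [Matrix.mul_one, Matrix.det_pow, det_Rm, one_pow]
    have hN : Nm (Rm θ ^ (m + 1) * 1) ≤ 20 * 4 ^ (11 * n + C) := by
      rw [Nm_Rm_pow]
      have : (1 : ℝ) ≤ 4 ^ (11 * n + C) := one_le_pow₀ (by norm_num)
      have h3 : Nm 1 = 2 := by simp [Nm]; norm_num
      rw [h3]; linarith
    rw [h2, Matrix.nonsing_inv_nonsing_inv _ (by rw [hdet]; exact isUnit_one)]
    exact ⟨entry_inv_le _ _ hdet hN i j, entry_le _ _ hN i j⟩

/-- coin tossing measure -/
noncomputable def coin : Measure (ℕ → Bool) :=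
  Measure.infinitePi fun _ => (PMF.uniformOfFintype Bool).toMeasure

instance : IsProbabilityMeasure coin := by unfold coin; infer_instance

theorem coin_cyl (ω : ℕ → Bool) (J : ℕ) :
    coin {ω' | ∀ q < J, ω' q = ω q} = (1 / 2) ^ J := by
  have h1 : {ω' : ℕ → Bool | ∀ q < J, ω' q = ω q} =
      Set.pi (Finset.range J : Set ℕ) (fun q => {ω q}) := by
    ext ω'; simp
  rw [h1, coin, Measure.infinitePi_pi]
  · simp [PMF.uniformOfFintype_apply]
  · intro i _; exact measurableSet_singleton _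

theorem lt_stay {X : Type*} {T : X → X} {𝒜 : Set (Set X)} {E : Set X} {k : ℕ}
    (h : (k : ℕ∞) < stay T 𝒜 E) : ∃ S ∈ 𝒜, T^[k] '' E ⊆ S := by
  obtain ⟨n, hn, hk⟩ := lt_sSup_iff.mp h
  exact hn k hk

/-- the generating cover -/
def cov : Set (Set (ℤ → Bool)) := {{x | x 0 = true}, {x | x 0 = false}}

theorem cov_agree {E : Set (ℤ → Bool)} {k : ℕ} (h : (k : ℕ∞) < stay shift cov E)
    {x y : ℤ → Bool} (hx : x ∈ E) (hy : y ∈ E) : x k = y k := by
  obtain ⟨S, hS, hsub⟩ := lt_stay h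
  have h1 : (shift^[k] x) ∈ S := hsub ⟨x, hx, rfl⟩
  have h2 : (shift^[k] y) ∈ S := hsub ⟨y, hy, rfl⟩
  rcases hS with rfl | rfl
  · simp only [Set.mem_ofPred_eq, shift_iter, zero_add] at h1 h2
    rw [h1, h2]
  · simp only [Set.mem_ofPred_eq, shift_iter, zero_add] at h1 h2
    rw [h1, h2]

theorem exp_bound (n m : ℕ) (hn : 0 < n) (s : ℝ) (hs : s ≤ Real.log 2 / 12) :
    (1 / 2 : ℝ) ^ ((m / (12 * n)) * n) ≤ 2 ^ n * Real.exp (-(s * m)) := by
  have h1 : (m : ℝ) / 12 - n ≤ ((m / (12 * n)) * n : ℕ) := by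
    have h2 : m < (m / (12 * n) + 1) * (12 * n) := by
      have := Nat.lt_succ_self (m / (12 * n))
      have h3 := Nat.div_add_mod m (12 * n)
      have h4 := Nat.mod_lt m (show 0 < 12 * n by omega)
      nlinarith
    have h3 : (m : ℝ) < ((m / (12 * n) : ℕ) + 1) * (12 * n) := by exact_mod_cast h2
    push_cast
    nlinarith
  have hlog : 0 < Real.log 2 := Real.log_pos (by norm_num)
  have e1 : (1 / 2 : ℝ) ^ ((m / (12 * n)) * n) =
      Real.exp (-(Real.log 2) * ((m / (12 * n)) * n : ℕ)) := by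
    rw [mul_comm (-(Real.log 2)), Real.exp_nat_mul, Real.exp_neg, Real.exp_log (by norm_num)]
    norm_num
  have e2 : (2 : ℝ) ^ n = Real.exp (Real.log 2 * n) := by
    rw [mul_comm, Real.exp_nat_mul, Real.exp_log (by norm_num)]
  rw [e1, e2, ← Real.exp_add]
  apply Real.exp_le_exp.mpr
  have hm : (0 : ℝ) ≤ m := Nat.cast_nonneg m
  have h5 : s * m ≤ Real.log 2 / 12 * m := mul_le_mul_of_nonneg_right hs hm
  nlinarith

theorem mass (θ : ℝ) (hθ : 0 < θ) (hθ1 : θ ≤ 1 / 100) (n : ℕ) (hn : 0 < n)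
    (hC : Real.pi / θ ≤ n) (s : ℝ≥0) (hs : (s : ℝ) ≤ Real.log 2 / 12) (E : Set (ℤ → Bool)) :
    coin ((code θ n n) ⁻¹' E) ≤ 2 ^ n * weight s (stay shift cov E) := by
  have key : ∀ m : ℕ, (m : ℕ∞) ≤ stay shift cov E →
      coin ((code θ n n) ⁻¹' E) ≤ 2 ^ n * ENNReal.ofReal (Real.exp (-((s : ℝ) * m))) := by
    intro m hm
    rcases Set.eq_empty_or_nonempty ((code θ n n) ⁻¹' E) with he | ⟨ω, hω⟩
    · rw [he]; simp
    · have hsub : (code θ n n) ⁻¹' E ⊆ {ω' | ∀ q < (m / (12 * n)) * n, ω' q = ω q} := by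
        intro ω' hω' q hq
        apply free_agree θ hθ hθ1 n n hn hC ω' ω (m / (12 * n)) _ q hq
        intro t ht
        have ht' : t < m := by
          refine lt_of_lt_of_le ht ?_
          rw [show 11 * n + n = 12 * n by ring]
          exact Nat.div_mul_le_self _ _
        have := cov_agree (lt_of_lt_of_le (by exact_mod_cast ht') hm) hω' hω
        rwa [code_nat, code_nat] at this
      refine (measure_mono hsub).trans ?_
      rw [coin_cyl]
      have h1 := exp_bound n m hn s hs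
      have h2 : ((1 : ℝ≥0∞) / 2) ^ ((m / (12 * n)) * n) =
          ENNReal.ofReal ((1 / 2 : ℝ) ^ ((m / (12 * n)) * n)) := by
        rw [ENNReal.ofReal_pow (by norm_num), ENNReal.ofReal_div_of_pos (by norm_num)]
        simp
      rw [h2]
      refine (ENNReal.ofReal_le_ofReal h1).trans ?_
      rw [ENNReal.ofReal_mul (by positivity), ENNReal.ofReal_pow (by norm_num)]
      simp
  unfold weight
  split_ifs with htop
  · rw [mul_zero, nonpos_iff_eq_zero]
    -- all `m` allowed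
    have h1 : ∀ m : ℕ, coin ((code θ n n) ⁻¹' E) ≤ (1 / 2) ^ (m * n) := by
      intro m
      rcases Set.eq_empty_or_nonempty ((code θ n n) ⁻¹' E) with he | ⟨ω, hω⟩
      · rw [he]; simp
      · have hsub : (code θ n n) ⁻¹' E ⊆ {ω' | ∀ q < m * n, ω' q = ω q} := by
          intro ω' hω' q hq
          apply free_agree θ hθ hθ1 n n hn hC ω' ω m _ q hq
          intro t _
          have := cov_agree (E := E) (k := t) (by rw [htop]; exact ENat.natCast_lt_top t) hω' hω
          rwa [code_nat, code_nat] at this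
        refine (measure_mono hsub).trans ?_
        rw [coin_cyl]
    have h2 : Filter.Tendsto (fun m : ℕ => ((1 : ℝ≥0∞) / 2) ^ (m * n)) Filter.atTop (nhds 0) := by
      have h3 : Filter.Tendsto (fun m : ℕ => m * n) Filter.atTop Filter.atTop :=
        Filter.tendsto_id.atTop_mul_const' hn
      exact (ENNReal.tendsto_pow_atTop_nhds_zero_of_lt_one (by
        rw [ENNReal.div_lt_iff] <;> norm_num)).comp h3
    exact le_antisymm (ge_of_tendsto' h2 h1) zero_le
  · apply key
    rw [ENat.natCast_toNat htop]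

theorem lower (θ : ℝ) (hθ : 0 < θ) (hθ1 : θ ≤ 1 / 100) :
    ENNReal.ofReal (Real.log 2 / 12) ≤ bowenEntropy shift (boundedOrbits θ) := by
  have hlog : 0 < Real.log 2 := Real.log_pos (by norm_num)
  obtain ⟨n, hn⟩ := exists_nat_ge (Real.pi / θ)
  have hn0 : 0 < n := by
    have h1 : 0 < Real.pi / θ := div_pos Real.pi_pos hθ
    have : (0 : ℝ) < n := lt_of_lt_of_le h1 hn
    exact_mod_cast this
  have hcov1 : cov.Finite := by unfold cov; simp
  have hcov2 : ∀ S ∈ cov, IsOpen S := by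
    intro S hS
    have hc : Continuous fun x : ℤ → Bool => x 0 := continuous_apply 0
    rcases hS with rfl | rfl
    · exact (isOpen_discrete {true}).preimage hc
    · exact (isOpen_discrete {false}).preimage hc
  have hcov3 : ⋃₀ cov = Set.univ := by
    ext x
    simp only [cov, Set.sUnion_insert, Set.sUnion_singleton, Set.mem_union, Set.mem_ofPred_eq,
      Set.mem_univ, iff_true]
    cases x 0 <;> simp
  refine le_iSup₂_of_le cov hcov1 (le_iSup₂_of_le hcov2 hcov3 ?_)
  refine le_iInf₂ fun s hs => ?_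
  by_contra hlt
  push Not at hlt
  have hs' : (s : ℝ) ≤ Real.log 2 / 12 := by
    have h1 : (s : ℝ≥0∞) = ENNReal.ofReal (s : ℝ) := by simp
    rw [h1] at hlt
    exact ((ENNReal.ofReal_lt_ofReal_iff (by positivity)).mp hlt).le
  have hpos : ((2 : ℝ≥0∞) ^ n)⁻¹ ≤ bowenMeasure shift cov s (boundedOrbits θ) := by
    unfold bowenMeasure
    refine le_iSup_of_le 0 (le_iInf₂ fun E hE => le_iInf fun _ => ?_)
    have h1 : (1 : ℝ≥0∞) ≤ ∑' i, coin ((code θ n n) ⁻¹' (E i)) := by
      calc (1 : ℝ≥0∞) = coin Set.univ := measure_univ.symm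
        _ ≤ coin (⋃ i, (code θ n n) ⁻¹' (E i)) := by
            apply measure_mono
            intro ω _
            have := hE (code_mem θ hθ hθ1 n n hn ω)
            rw [Set.mem_iUnion] at this ⊢
            exact this
        _ ≤ ∑' i, coin ((code θ n n) ⁻¹' (E i)) := measure_iUnion_le _
    have h2 : ∑' i, coin ((code θ n n) ⁻¹' (E i)) ≤
        2 ^ n * ∑' i, weight s (stay shift cov (E i)) := by
      rw [← ENNReal.tsum_mul_left]
      exact ENNReal.tsum_le_tsum fun i => mass θ hθ hθ1 n hn0 hn s hs' (E i)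
    have h3 := h1.trans h2
    have h2n : ((2 : ℝ≥0∞) ^ n) ≠ 0 := pow_ne_zero _ (by norm_num)
    have h2t : ((2 : ℝ≥0∞) ^ n) ≠ ⊤ := ENNReal.pow_ne_top (by norm_num)
    calc ((2 : ℝ≥0∞) ^ n)⁻¹ = ((2 : ℝ≥0∞) ^ n)⁻¹ * 1 := (mul_one _).symm
      _ ≤ ((2 : ℝ≥0∞) ^ n)⁻¹ * (2 ^ n * ∑' i, weight s (stay shift cov (E i))) := by gcongr
      _ = ∑' i, weight s (stay shift cov (E i)) := by
          rw [← mul_assoc, ENNReal.inv_mul_cancel h2n h2t, one_mul]
  rw [hs] at hpos
  have : ((2 : ℝ≥0∞) ^ n)⁻¹ = 0 := le_antisymm hpos zero_le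
  rw [ENNReal.inv_eq_zero] at this
  exact absurd this (by simp)

theorem stay_singleton {X : Type*} (T : X → X) (𝒜 : Set (Set X)) (h : ⋃₀ 𝒜 = Set.univ) (y : X) :
    stay T 𝒜 {y} = ⊤ := by
  apply le_antisymm le_top
  apply le_sSup
  intro k _
  have : T^[k] y ∈ ⋃₀ 𝒜 := by rw [h]; trivial
  obtain ⟨S, hS, hy⟩ := this
  exact ⟨S, hS, by simpa using hy⟩

theorem entropy_countable {X : Type*} [TopologicalSpace X] (T : X → X) (Y : Set X)
    (hY : Y.Countable) (hne : Y.Nonempty) : bowenEntropy T Y = 0 := by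
  unfold bowenEntropy
  simp only [ENNReal.iSup_eq_zero]
  intro 𝒜 _ _ h3
  obtain ⟨y, hy⟩ := hY.exists_eq_range hne
  have h0 : bowenMeasure T 𝒜 0 Y = 0 := by
    unfold bowenMeasure
    simp only [ENNReal.iSup_eq_zero]
    intro N
    apply le_antisymm _ zero_le
    refine iInf_le_of_le (fun i => {y i}) (iInf_le_of_le ?_ (iInf_le_of_le ?_ ?_))
    · rw [hy]; intro z hz
      obtain ⟨i, rfl⟩ := hz
      exact Set.mem_iUnion.mpr ⟨i, rfl⟩
    · intro i; rw [stay_singleton T 𝒜 h3]; exact le_top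
    · simp [stay_singleton T 𝒜 h3, weight]
  apply le_antisymm _ zero_le
  refine iInf₂_le_of_le 0 h0 (by simp)

end Pool.Agent.H41.Rot
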