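import Mathlib
import Pool.Agent.H41.RotC

set_option autoImplicit false

open scoped ENNReal NNReal

namespace Pool.Agent.H41.Rot

open Matrix

theorem Dm_row (M : Matrix (Fin 2) (Fin 2) ℝ) : (Dm * M) 0 0 = 2 * M 0 0 := by
  simp [Dm, Matrix.mul_apply, Fin.sum_univ_two]

theorem R0_row (M : Matrix (Fin 2) (Fin 2) ℝ) : (Rm 0 * M) 0 0 = M 0 0 := by
  simp [Rm, Matrix.mul_apply, Fin.sum_univ_two]

theorem run_zero_entry (c : ℕ → Bool) (n : ℕ) :
    run 0 1 c n 0 0 = 2 ^ ((Finset.range n).filter (fun i => c i = true)).card := by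
  induction n with
  | zero => simp [run]
  | succ n ih =>
    rw [run, Finset.range_add_one, Finset.filter_insert]
    by_cases h : c n = true
    · rw [if_pos h, Finset.card_insert_of_notMem (by simp), letter, if_pos h, Dm_row, ih]
      ring
    · rw [if_neg h, letter, if_neg h, R0_row, ih]

theorem finite_of_counts (c : ℕ → Bool) (N : ℕ)
    (h : ∀ n, ((Finset.range n).filter (fun i => c i = true)).card ≤ N) :
    {i | c i = true}.Finite := by
  by_contra hinf
  obtain ⟨t, hts, htc⟩ := Set.Infinite.exists_subset_card_eq hinf (N + 1)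
  have h1 := h (t.sup id + 1)
  have h2 : t ⊆ (Finset.range (t.sup id + 1)).filter (fun i => c i = true) := by
    intro i hi
    rw [Finset.mem_filter, Finset.mem_range]
    refine ⟨?_, hts hi⟩
    have := Finset.le_sup (f := id) hi
    simp only [id] at this
    omega
  have := Finset.card_le_card h2
  omega

theorem fiberProd_det (θ : ℝ) (x : ℤ → Bool) (n : ℕ) : (fiberProd θ x n).det = 1 := by
  rw [fiberProd_eq]; exact run_det _ _ _ _ (by simp)

theorem bounded_zero_finite (x : ℤ → Bool) (hx : x ∈ boundedOrbits 0) :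
    {i : ℤ | x i = true}.Finite := by
  obtain ⟨K, hK⟩ := hx
  obtain ⟨N, hN⟩ := pow_unbounded_of_one_lt K (show (1:ℝ) < 2 by norm_num)
  have bd : ∀ m : ℕ, (2:ℝ) ^ m ≤ K → m ≤ N := by
    intro m hm
    by_contra hlt
    push Not at hlt
    have : (2:ℝ) ^ N ≤ 2 ^ m := pow_le_pow_right₀ (by norm_num) hlt.le
    linarith
  have h1 : {i : ℕ | x i = true}.Finite := by
    apply finite_of_counts (fun i : ℕ => x i) N
    intro n
    apply bd
    have h2 := (hK (Int.ofNat n) 0 0).1
    have h3 : cocycle 0 x (Int.ofNat n) = run 0 1 (fun i => x i) n := fiberProd_eq 0 x n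
    rw [h3, run_zero_entry] at h2
    exact (le_abs_self _).trans h2
  have h2 : {i : ℕ | x (-(i + 1 : ℤ)) = true}.Finite := by
    apply finite_of_counts (fun i : ℕ => x (-(i + 1 : ℤ))) N
    intro n
    rcases Nat.eq_zero_or_pos n with rfl | hn
    · simp
    obtain ⟨m, rfl⟩ : ∃ m, n = m + 1 := ⟨n - 1, by omega⟩
    apply bd
    have h2 := (hK (Int.negSucc m) 0 0).2
    have h3 : (cocycle 0 x (Int.negSucc m))⁻¹ =
        run 0 1 (fun i => shiftBy (-(m + 1 : ℤ)) x i) (m + 1) := by
      show ((fiberProd 0 (shiftBy (-(m + 1 : ℤ)) x) (m + 1))⁻¹)⁻¹ = _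
      rw [Matrix.nonsing_inv_nonsing_inv _ (by rw [fiberProd_det]; exact isUnit_one), fiberProd_eq]
    rw [h3, run_zero_entry] at h2
    have h4 : ((Finset.range (m + 1)).filter (fun i : ℕ => x (-(i + 1 : ℤ)) = true)).card =
        ((Finset.range (m + 1)).filter
          (fun i : ℕ => shiftBy (-(m + 1 : ℤ)) x i = true)).card := by
      apply Finset.card_bij' (fun i _ => m - i) (fun i _ => m - i)
      · intro i hi
        rw [Finset.mem_filter, Finset.mem_range] at hi ⊢
        refine ⟨by omega, ?_⟩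
        have : ((m - i : ℕ) : ℤ) + -(m + 1 : ℤ) = -(i + 1 : ℤ) := by omega
        simp only [shiftBy]
        rw [this]; exact hi.2
      · intro i hi
        rw [Finset.mem_filter, Finset.mem_range] at hi ⊢
        refine ⟨by omega, ?_⟩
        have : -(((m - i : ℕ) : ℤ) + 1) = (i : ℤ) + -(m + 1 : ℤ) := by omega
        rw [this]; exact hi.2
      · intro i hi
        rw [Finset.mem_filter, Finset.mem_range] at hi
        omega
      · intro i hi
        rw [Finset.mem_filter, Finset.mem_range] at hi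
        omega
    rw [h4]
    exact (le_abs_self _).trans h2
  have h3 : {i : ℤ | x i = true} ⊆ ((fun i : ℕ => (i : ℤ)) '' {i : ℕ | x i = true}) ∪
      ((fun i : ℕ => -(i + 1 : ℤ)) '' {i : ℕ | x (-(i + 1 : ℤ)) = true}) := by
    intro i hi
    rcases le_or_gt 0 i with h | h
    · left
      refine ⟨i.toNat, ?_, by simp [h]⟩
      show x (i.toNat : ℤ) = true
      rw [Int.toNat_of_nonneg h]; exact hi
    · right
      refine ⟨(-i - 1).toNat, ?_, ?_⟩
      · show x (-(((-i - 1).toNat : ℤ) + 1)) = true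
        rw [Int.toNat_of_nonneg (by omega)]
        have : -(-i - 1 + 1) = i := by ring
        rw [this]; exact hi
      · show -(((-i - 1).toNat : ℤ) + 1) = i
        rw [Int.toNat_of_nonneg (by omega)]; ring
  exact ((h1.image _).union (h2.image _)).subset h3

theorem bounded_zero_countable : (boundedOrbits 0).Countable := by
  have h1 : {s : Set ℤ | s.Finite}.Countable := by
    have := Set.countable_ofPred_finite_subset (Set.countable_univ (α := ℤ))
    refine this.mono ?_
    intro s hs; exact ⟨hs, Set.subset_univ _⟩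
  have h2 : Set.MapsTo (fun x : ℤ → Bool => {i : ℤ | x i = true}) (boundedOrbits 0)
      {s : Set ℤ | s.Finite} := fun x hx => bounded_zero_finite x hx
  refine Set.MapsTo.countable_of_injOn h2 ?_ h1
  intro x _ y _ hxy
  funext i
  have : i ∈ {i : ℤ | x i = true} ↔ i ∈ {i : ℤ | y i = true} := by
    have h := hxy
    simp only at h
    rw [h]
  simp only [Set.mem_ofPred_eq] at this
  cases hx : x i <;> cases hy : y i <;> simp_all

theorem bounded_zero_nonempty : (boundedOrbits 0).Nonempty := by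
  refine ⟨fun _ => false, 1 + 20, ?_⟩
  have key : ∀ n : ℕ, fiberProd 0 (fun _ => false) n = Rm 0 ^ n * 1 := by
    intro n; rw [fiberProd_eq, ← run_false]
  have hdet : ∀ n, (Rm 0 ^ n * 1).det = 1 := by
    intro n; rw [Matrix.mul_one, Matrix.det_pow, det_Rm, one_pow]
  have hN : ∀ n, Nm (Rm 0 ^ n * 1) ≤ 20 := by
    intro n
    rw [Nm_Rm_pow]
    simp [Nm]; norm_num
  intro n i j
  match n with
  | Int.ofNat n =>
    have h1 : cocycle 0 (fun _ => false) (Int.ofNat n) = Rm 0 ^ n * 1 := key n
    rw [h1]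
    exact ⟨entry_le _ _ (hN n) i j, entry_inv_le _ _ (hdet n) (hN n) i j⟩
  | Int.negSucc n =>
    have h1 : cocycle 0 (fun _ => false) (Int.negSucc n) = (Rm 0 ^ (n + 1) * 1)⁻¹ := by
      show (fiberProd 0 (shiftBy (-(n + 1 : ℤ)) (fun _ => false)) (n + 1))⁻¹ = _
      have h2 : shiftBy (-(n + 1 : ℤ)) (fun _ => false) = (fun _ => false) := rfl
      rw [h2, key]
    rw [h1, Matrix.nonsing_inv_nonsing_inv _ (by rw [hdet]; exact isUnit_one)]
    exact ⟨entry_inv_le _ _ (hdet _) (hN _) i j, entry_le _ _ (hN _) i j⟩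

theorem entropy_zero : bowenEntropy shift (boundedOrbits 0) = 0 :=
  entropy_countable _ _ bounded_zero_countable bounded_zero_nonempty

theorem not_continuousAt :
    ¬ ContinuousAt (fun θ : ℝ => bowenEntropy shift (boundedOrbits θ)) 0 := by
  intro h
  have h : Filter.Tendsto (fun θ : ℝ => bowenEntropy shift (boundedOrbits θ)) (nhds 0)
      (nhds (bowenEntropy shift (boundedOrbits 0))) := h
  rw [entropy_zero] at h
  have hlog : 0 < Real.log 2 := Real.log_pos (by norm_num)
  have hpos : (0 : ℝ≥0∞) < ENNReal.ofReal (Real.log 2 / 12) := by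
    rw [ENNReal.ofReal_pos]; positivity
  have h1 := h.eventually (gt_mem_nhds hpos)
  obtain ⟨ε, hε, h2⟩ := Metric.eventually_nhds_iff.mp h1
  set θ : ℝ := min (ε / 2) (1 / 100) with hθ
  have hθ0 : 0 < θ := lt_min (by linarith) (by norm_num)
  have hθ1 : θ ≤ 1 / 100 := min_le_right _ _
  have hθ2 : dist θ 0 < ε := by
    rw [Real.dist_eq, sub_zero, abs_of_pos hθ0]
    exact lt_of_le_of_lt (min_le_left _ _) (by linarith)
  have h3 := h2 hθ2
  exact absurd h3 (not_lt.mpr (lower θ hθ0 hθ1))

end Pool.Agent.H41.Rot
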